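import Mathlib

/-!
# Project RT (MP_120218_co): from `h`-fold sumsets to sums with arbitrary sets
-/

set_option autoImplicit false

open Finset

open scoped Pointwise

namespace Pool.Agent.Helper99.RT

/-- the `h`-fold sumset -/
noncomputable def hSum {F : Type*} [AddCommGroup F] (h : ℕ) (S : Finset F) : Finset F := by
  classical
  exact (Fintype.piFinset (fun _ : Fin h => S)).image (fun f : Fin h → F => ∑ i, f i)

theorem mem_hSum {F : Type*} [AddCommGroup F] (h : ℕ) (S : Finset F) (y : F) :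
    y ∈ hSum h S ↔ ∃ f : Fin h → F, (∀ i, f i ∈ S) ∧ ∑ i, f i = y := by
  classical
  unfold hSum
  simp [Fintype.mem_piFinset]

/-- the sumset -/
noncomputable def smm {F : Type*} [AddCommGroup F] (S B : Finset F) : Finset F := by
  classical
  exact image₂ (fun s b => s + b) S B

theorem mem_smm {F : Type*} [AddCommGroup F] (S B : Finset F) (y : F) :
    y ∈ smm S B ↔ ∃ s ∈ S, ∃ b ∈ B, s + b = y := by
  classical
  unfold smm
  rw [Finset.mem_image₂]

theorem plue_add {F : Type*} [AddCommGroup F] (S B : Finset F) (hB : B.Nonempty) (h : ℕ) :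
    ((hSum h S).card : ℝ) * (B.card : ℝ) ^ h ≤ ((smm S B).card : ℝ) ^ h * B.card := by
  classical
  have h1 := pluennecke_ruzsa_inequality_nsmul_add hB S h
  have h2 : ((h • S).card : ℝ) ≤ (((B + S).card : ℝ) / B.card) ^ h * B.card := by
    have h3 := (NNRat.cast_le (K := ℝ)).2 h1
    push_cast at h3
    exact h3
  have h3 : (hSum h S).card ≤ (h • S).card := by
    apply card_le_card
    intro y hy
    rw [mem_hSum] at hy
    obtain ⟨f, hf, rfl⟩ := hy
    rw [Finset.mem_nsmul]
    exact ⟨fun i => ⟨f i, hf i⟩, by rw [List.sum_ofFn]⟩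
  have h4 : (B + S).card ≤ (smm S B).card := by
    apply card_le_card
    intro y hy
    rw [Finset.mem_add] at hy
    obtain ⟨b, hb, s, hs, rfl⟩ := hy
    rw [mem_smm]
    exact ⟨s, hs, b, hb, add_comm _ _⟩
  have hpos : (0 : ℝ) < B.card := by exact_mod_cast hB.card_pos
  calc ((hSum h S).card : ℝ) * (B.card : ℝ) ^ h ≤ ((h • S).card : ℝ) * (B.card : ℝ) ^ h := by
        gcongr
    _ ≤ ((((B + S).card : ℝ) / B.card) ^ h * B.card) * (B.card : ℝ) ^ h :=
        mul_le_mul_of_nonneg_right h2 (by positivity)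
    _ = ((B + S).card : ℝ) ^ h * B.card := by
        rw [div_pow]
        field_simp
    _ ≤ ((smm S B).card : ℝ) ^ h * B.card := by gcongr

/-- a set with a large `h`-fold sumset expands every finite set -/
theorem expandAdd {F : Type*} [AddCommGroup F] (h : ℕ) (hh : 0 < h) (S : Finset F)
    (c N ε : ℝ) (hc : 0 < c) (hN : 1 ≤ N) (hε : 1 / (h : ℝ) ≤ ε)
    (hS : c * N ^ ((h : ℝ) - 1) ≤ ((hSum h S).card : ℝ))
    (B : Finset F) (hB : B.Nonempty) :
    c ^ (1 / (h : ℝ)) * (N * B.card) ^ (1 - ε) ≤ ((smm S B).card : ℝ) := by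
  classical
  have h2 := plue_add S B hB h
  have hb1 : (1 : ℝ) ≤ B.card := by exact_mod_cast hB.card_pos
  have hb0 : (0 : ℝ) < B.card := by linarith
  have hN0 : (0 : ℝ) < N := by linarith
  have hh0 : (0 : ℝ) < h := by exact_mod_cast hh
  set X : ℝ := ((smm S B).card : ℝ) with hX
  have hX0 : 0 ≤ X := by positivity
  have h5 : c * (N * B.card) ^ ((h : ℝ) - 1) ≤ X ^ h := by
    have h7 : (c * N ^ ((h : ℝ) - 1)) * (B.card : ℝ) ^ h ≤ X ^ h * B.card := by
      calc (c * N ^ ((h : ℝ) - 1)) * (B.card : ℝ) ^ h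
          ≤ ((hSum h S).card : ℝ) * (B.card : ℝ) ^ h :=
            mul_le_mul_of_nonneg_right hS (by positivity)
        _ ≤ X ^ h * B.card := h2
    have h8 : (B.card : ℝ) ^ h = (B.card : ℝ) ^ ((h : ℝ) - 1) * B.card := by
      rw [Real.rpow_sub_one hb0.ne', Real.rpow_natCast]
      field_simp
    rw [h8] at h7
    have h9 : (c * N ^ ((h : ℝ) - 1) * (B.card : ℝ) ^ ((h : ℝ) - 1)) * B.card ≤
        X ^ h * B.card := by
      linarith
    have h10 := le_of_mul_le_mul_right h9 hb0
    rw [Real.mul_rpow hN0.le hb0.le]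
    linarith
  have h6 : (c * (N * B.card) ^ ((h : ℝ) - 1)) ^ (1 / (h : ℝ)) ≤ X := by
    have h7 := Real.rpow_le_rpow (by positivity) h5 (by positivity : (0 : ℝ) ≤ 1 / (h : ℝ))
    rw [← Real.rpow_natCast, ← Real.rpow_mul hX0, mul_one_div_cancel hh0.ne', Real.rpow_one] at h7
    exact h7
  rw [Real.mul_rpow (by positivity) (by positivity), ← Real.rpow_mul (by positivity)] at h6
  refine le_trans ?_ h6
  refine mul_le_mul_of_nonneg_left ?_ (by positivity)
  refine Real.rpow_le_rpow_of_exponent_le (by nlinarith) ?_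
  have h7 : ((h : ℝ) - 1) * (1 / (h : ℝ)) = 1 - 1 / (h : ℝ) := by
    field_simp
  rw [h7]
  linarith

end Pool.Agent.Helper99.RT
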