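import Pool.Agent.Helper99.RT.Zer
import Pool.Agent.Helper99.RT.Expand
import Pool.Agent.Helper99.TR.ZerC

/-!
# Project RT (MP_120218_co): the exceptional zeros for sums of reciprocals
-/

set_option autoImplicit false

open Finset Polynomial

namespace Pool.Agent.Helper99.RT

open Pool.Agent.Helper26.TR Pool.Agent.Helper88.NZ
open Pool.Agent.Helper99.TR (Gd log_nn W0_nonneg W0b_const)
open Pool.Agent.Helper88.RT (W1a NRMix recSum)

/-- the numbers `1 / F(a)`, `a ∈ A`, `F(a) ≠ 0` -/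
noncomputable def rvals (F : ℤ[X]) (A : Finset ℤ) : Finset ℂ := by
  classical
  exact (A.filter (fun a => F.eval a ≠ 0)).image (fun a : ℤ => (((F.eval a : ℤ) : ℂ))⁻¹)

theorem mem_rvals (F : ℤ[X]) (A : Finset ℤ) (y : ℂ) :
    y ∈ rvals F A ↔ ∃ a ∈ A, F.eval a ≠ 0 ∧ (((F.eval a : ℤ) : ℂ))⁻¹ = y := by
  classical
  unfold rvals
  simp only [mem_image, mem_filter]
  constructor
  · rintro ⟨a, ⟨h1, h2⟩, h3⟩
    exact ⟨a, h1, h2, h3⟩
  · rintro ⟨a, h1, h2, h3⟩
    exact ⟨a, ⟨h1, h2⟩, h3⟩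

/-- the theorem on exceptional zeros, for sums of reciprocals -/
def RTZ : Prop :=
  ∀ (ε : ℝ) (d : ℕ), 0 < ε → ∃ (m : ℕ) (c : ℝ), 0 < c ∧
    ∀ A : Finset ℤ, A.Nonempty → ∃ Z : Finset ℂ, Z.card ≤ m ∧
      ∀ F : ℤ[X], 1 ≤ F.natDegree → F.natDegree ≤ d →
        (∀ j, (|F.coeff j| : ℝ) ≤ (A.card : ℝ) ^ (c * Real.log (Real.log A.card))) →
        (∀ z ∈ Z, aeval z F ≠ 0) →
        ∀ B : Finset ℂ, B.Nonempty →
          c * ((A.card : ℝ) * (B.card : ℝ)) ^ (1 - ε) ≤ ((smm (rvals F A) B).card : ℝ)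

/-- the sums of the reciprocals of the values of the primitive part -/
theorem rec_le_hSum {F P : ℤ[X]} {g : ℤ} (hg : g ≠ 0) (hFP : ∀ a, F.eval a = g * P.eval a)
    (A : Finset ℤ) (h : ℕ) :
    (recSum (fun _ : Fin h => fz A P)).card ≤ (hSum h (rvals F A)).card := by
  classical
  have hg' : (g : ℂ) ≠ 0 := by exact_mod_cast hg
  refine card_le_card_of_injOn (fun y : ℚ => (g : ℂ)⁻¹ * (y : ℂ)) ?_ ?_
  · intro y hy
    rw [mem_coe] at hy ⊢
    unfold recSum at hy
    rw [mem_image] at hy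
    obtain ⟨f, hf, rfl⟩ := hy
    rw [Fintype.mem_piFinset] at hf
    rw [mem_hSum]
    refine ⟨fun i => (g : ℂ)⁻¹ * ((f i : ℤ) : ℂ)⁻¹, fun i => ?_, ?_⟩
    · have h1 := hf i
      unfold fz at h1
      have hne : f i ≠ 0 := ne_of_mem_erase h1
      obtain ⟨a, ha, hfa⟩ := mem_image.1 (mem_of_mem_erase h1)
      rw [mem_rvals]
      refine ⟨a, ha, ?_, ?_⟩
      · rw [hFP a, hfa]
        exact mul_ne_zero hg hne
      · rw [hFP a, hfa]
        push_cast
        rw [mul_inv]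
    · rw [← mul_sum]
      push_cast
      rfl
  · intro x _ y _ hxy
    have h1 := mul_left_cancel₀ (inv_ne_zero hg') hxy
    exact_mod_cast h1

theorem rel_of_nr {k : ℕ} (hk : (0 : ℝ) < k) {A : Finset ℤ} {θ κ C c₁ LL : ℝ} (hC : 0 < C)
    {P : ℤ[X]} {l : Fin k} (hLL : 1 ≤ c₁ * LL)
    (hl1 : ∀ (T : Finset ℕ) (e : ℕ → ℕ) (β : ℕ → ℤ), Pop (θ * κ) (fz A P) T e β →
      W1a T e β ≤ C * (W0b κ (fun _ : Fin k => fz A P) l + 1))
    (hl2 : c₁ * LL ≤ W0b κ (fun _ : Fin k => fz A P) l) :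
    RelR A θ κ (2 * C * k) (c₁ / k * LL) P := by
  have hWk := W0b_const κ (fz A P) l
  have hWb1 : 1 ≤ W0b κ (fun _ : Fin k => fz A P) l := hLL.trans hl2
  constructor
  · intro T e β hPop
    refine (hl1 T e β hPop).trans ?_
    calc C * (W0b κ (fun _ : Fin k => fz A P) l + 1)
        ≤ C * (2 * W0b κ (fun _ : Fin k => fz A P) l) := by
          apply mul_le_mul_of_nonneg_left _ hC.le
          linarith
      _ ≤ C * (2 * (k * W0 κ (fz A P))) := by
          apply mul_le_mul_of_nonneg_left _ hC.le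
          linarith
      _ = 2 * C * k * W0 κ (fz A P) := by ring
  · have h1 : c₁ * LL ≤ k * W0 κ (fz A P) := hl2.trans hWk
    rw [div_mul_eq_mul_div, div_le_iff₀ hk, mul_comm _ (k : ℝ)]
    exact h1

theorem hSum_large {k : ℕ} {A : Finset ℤ} {N c₁ dd : ℝ} (hN : 0 < N) (hd : 0 < dd)
    (hc₁ : 0 < c₁) {F P : ℤ[X]} {g : ℤ} (hg : g ≠ 0) (hFP : ∀ a, F.eval a = g * P.eval a)
    (hV : N / dd ≤ ((fz A P).card : ℝ))
    (hl : c₁ * N ^ (-(1 : ℝ)) * ∏ _l : Fin k, ((fz A P).card : ℝ) ≤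
      ((recSum (fun _ : Fin k => fz A P)).card : ℝ)) :
    c₁ / dd ^ k * N ^ ((k : ℝ) - 1) ≤ ((hSum k (rvals F A)).card : ℝ) := by
  have h0 : 0 < N / dd := div_pos hN hd
  have hprod : (N / dd) ^ k ≤ ∏ _l : Fin k, ((fz A P).card : ℝ) := by
    rw [prod_const, card_univ, Fintype.card_fin]
    exact pow_le_pow_left₀ h0.le hV k
  calc c₁ / dd ^ k * N ^ ((k : ℝ) - 1)
      = c₁ * N ^ (-(1 : ℝ)) * (N / dd) ^ k := by
        rw [show (k : ℝ) - 1 = -(1 : ℝ) + k by ring, Real.rpow_add hN, Real.rpow_natCast,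
          div_pow]
        ring
    _ ≤ c₁ * N ^ (-(1 : ℝ)) * ∏ _l : Fin k, ((fz A P).card : ℝ) :=
        mul_le_mul_of_nonneg_left hprod (by positivity)
    _ ≤ ((recSum (fun _ : Fin k => fz A P)).card : ℝ) := hl
    _ ≤ _ := by exact_mod_cast rec_le_hSum hg hFP A k

theorem rtz (hNZ : NRMix) : RTZ := by
  classical
  intro ε d₀ hε
  set d : ℕ := max d₀ 1 with hdd
  have hd : 1 ≤ d := le_max_right _ _
  have hd0 : d₀ ≤ d := le_max_left _ _
  clear_value d
  have hdr : (1 : ℝ) ≤ d := by exact_mod_cast hd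
  have hdr0 : (0 : ℝ) < d := by linarith
  -- the number of factors
  set k : ℕ := ⌈1 / ε⌉₊ with hk
  have hk1' : 1 / ε ≤ (k : ℝ) := Nat.le_ceil _
  have hk0' : 0 < k := by
    rw [hk, Nat.ceil_pos]
    positivity
  have hk1 : (1 : ℝ) ≤ k := by exact_mod_cast hk0'
  have hk0 : (0 : ℝ) < k := by linarith
  have hkε : 1 / (k : ℝ) ≤ ε := by
    rw [div_le_iff₀ hk0]
    rw [div_le_iff₀ hε] at hk1'
    linarith
  clear_value k
  set θ : ℝ := 1 / (2 * (d : ℝ) ^ 3) with hθ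
  have hθ0 : 0 < θ := by positivity
  have hθ1 : θ ≤ 1 := by
    rw [hθ, div_le_one (by positivity)]
    have : (1 : ℝ) ≤ (d : ℝ) ^ 3 := one_le_pow₀ hdr
    linarith
  obtain ⟨κ, C, c₁, hκ, hC, hc₁, hnz⟩ := hNZ k 1 one_pos θ hθ0 hθ1
  -- the number of exceptions
  have hml : ∀ l : Fin k, ∃ m : ℕ, 2 + 2 * (d : ℝ) ^ 2 / κ l * (2 * C * k) ≤ m :=
    fun l => exists_nat_ge _
  choose ml hml using hml
  set m : ℕ := 1 + ∑ l, ml l * d with hm
  have hmlm : ∀ l, (ml l : ℝ) ≤ m := by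
    intro l
    have h1 : ml l * d ≤ ∑ l, ml l * d := single_le_sum (f := fun l => ml l * d)
      (fun _ _ => Nat.zero_le _) (mem_univ l)
    have h2 : ml l * 1 ≤ ml l * d := Nat.mul_le_mul_left _ hd
    have h3 : ml l ≤ m := by omega
    exact_mod_cast h3
  set c₀ : ℝ := c₁ / (k * (2 * (d * ((m : ℝ) + 1) * (((m : ℝ) + 2) ^ 2 * (2 * d + 1))))) with hc₀
  have hc₀0 : 0 < c₀ := by positivity
  clear_value m
  set Lf : ℝ := Real.log ((2 * d).factorial : ℝ) with hLf
  have hLf0 : 0 ≤ Lf := by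
    apply Real.log_nonneg
    exact_mod_cast Nat.one_le_iff_ne_zero.2 (Nat.factorial_ne_zero _)
  -- the threshold
  set L₀ : ℝ := max 16 (1 / c₁ + Lf / c₀ + Real.log (2 * d)) with hL₀
  have hL₀1 : 16 ≤ L₀ := le_max_left _ _
  have hL₀2 : 1 / c₁ + Lf / c₀ + Real.log (2 * d) ≤ L₀ := le_max_right _ _
  set c₂ : ℝ := (c₁ / (2 * d) ^ k) ^ (1 / (k : ℝ)) with hc₂
  have hc₂0 : 0 < c₂ := by positivity
  set c : ℝ := min c₂ (min c₀ (Real.exp (-L₀))) with hc
  have hc0 : 0 < c := by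
    rw [hc]
    apply lt_min hc₂0 (lt_min hc₀0 (Real.exp_pos _))
  have hcc₂ : c ≤ c₂ := min_le_left _ _
  have hcc₀ : c ≤ c₀ := (min_le_right _ _).trans (min_le_left _ _)
  have hce : c ≤ Real.exp (-L₀) := (min_le_right _ _).trans (min_le_right _ _)
  clear_value c c₂ L₀
  refine ⟨m, c, hc0, ?_⟩
  intro A hA
  have hN1 : (1 : ℝ) ≤ A.card := by exact_mod_cast card_pos.2 hA
  have hNpos : (0 : ℝ) < A.card := by linarith
  set N : ℝ := (A.card : ℝ) with hN
  -- small `N`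
  by_cases hL0 : Real.log N ≤ L₀
  · obtain ⟨a₀, ha₀⟩ := hA
    refine ⟨{(a₀ : ℂ)}, by rw [card_singleton]; omega, ?_⟩
    intro F _ _ _ hz B hB
    have hFa : F.eval a₀ ≠ 0 := by
      have h1 := hz (a₀ : ℂ) (mem_singleton_self _)
      intro h2
      apply h1
      have h3 : aeval (a₀ : ℂ) F = ((F.eval a₀ : ℤ) : ℂ) := by
        have h4 := aeval_algebraMap_apply ℂ a₀ F
        simpa using h4
      rw [h3, h2]
      simp
    have hB1 : (1 : ℝ) ≤ B.card := by exact_mod_cast hB.card_pos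
    have h2 : (B.card : ℝ) ≤ ((smm (rvals F A) B).card : ℝ) := by
      apply Nat.cast_le.2
      refine card_le_card_of_injOn (fun b : ℂ => (((F.eval a₀ : ℤ) : ℂ))⁻¹ + b) ?_ ?_
      · intro b hb
        rw [mem_coe, mem_smm]
        exact ⟨_, (mem_rvals _ _ _).2 ⟨a₀, ha₀, hFa, rfl⟩, b, hb, rfl⟩
      · intro x _ y _ hxy
        exact add_left_cancel hxy
    refine le_trans ?_ h2
    have hL0' : 0 ≤ Real.log N := Real.log_nonneg hN1
    have h3 : (N * (B.card : ℝ)) ^ (1 - ε) ≤ N * B.card := by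
      calc (N * (B.card : ℝ)) ^ (1 - ε) ≤ (N * (B.card : ℝ)) ^ (1 : ℝ) :=
            Real.rpow_le_rpow_of_exponent_le (by nlinarith) (by linarith)
        _ = _ := Real.rpow_one _
    have h4 : c * N ≤ 1 := by
      calc c * N ≤ Real.exp (-L₀) * N := mul_le_mul_of_nonneg_right hce hNpos.le
        _ = Real.exp (-L₀) * Real.exp (Real.log N) := by rw [Real.exp_log hNpos]
        _ = Real.exp (Real.log N - L₀) := by
            rw [← Real.exp_add]
            congr 1
            ring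
        _ ≤ Real.exp 0 := Real.exp_le_exp.2 (by linarith)
        _ = 1 := Real.exp_zero
    calc c * (N * (B.card : ℝ)) ^ (1 - ε) ≤ c * (N * B.card) :=
          mul_le_mul_of_nonneg_left h3 hc0.le
      _ = c * N * B.card := by ring
      _ ≤ 1 * B.card := mul_le_mul_of_nonneg_right h4 (by linarith)
      _ = B.card := one_mul _
  push Not at hL0
  have hL16 : 16 ≤ Real.log N := hL₀1.trans hL0.le
  have hL2 : 1 / c₁ + Lf / c₀ + Real.log (2 * d) ≤ Real.log N := hL₀2.trans hL0.le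
  have hNexp : Real.exp 16 ≤ N := by rwa [← Real.le_log_iff_exp_le hNpos]
  obtain ⟨-, hLL1, -⟩ := half_log hNexp (M := N) (by linarith)
  have hi1 : 0 < 1 / c₁ := by positivity
  have hi0 : 0 ≤ Lf / c₀ := by positivity
  have hi2 : 0 ≤ Real.log (2 * d) := Real.log_nonneg (by linarith)
  set LL : ℝ := Real.log N * Real.log (Real.log N) with hLL
  have hLLL : Real.log N ≤ LL := by
    rw [hLL]
    nlinarith
  have hLLc₁ : 1 ≤ c₁ * LL := by
    have h1 : 1 / c₁ ≤ LL := by linarith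
    rw [div_le_iff₀ hc₁] at h1
    linarith
  have hLLc₀ : Lf ≤ c₀ * LL := by
    have h1 : Lf / c₀ ≤ LL := by linarith
    rw [div_le_iff₀ hc₀0] at h1
    linarith
  have hLL0 : 0 < LL := by linarith
  have hN2d : 2 * (d : ℝ) ≤ N := by
    rw [← Real.log_le_log_iff (by positivity) hNpos]
    linarith
  have hA2d : 2 * d ≤ A.card := by
    have h1 : (2 : ℝ) * d ≤ (A.card : ℝ) := hN2d
    exact_mod_cast h1
  set X' : ℝ := N ^ (c * Real.log (Real.log N)) with hX
  have hX1 : 1 ≤ X' := by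
    apply Real.one_le_rpow hN1
    apply mul_nonneg hc0.le
    linarith
  have hXpos : 0 < X' := by linarith
  have hlogX : Real.log X' ≤ c₀ * LL := by
    rw [hX, Real.log_rpow hNpos]
    have h1 : c * Real.log (Real.log N) * Real.log N = c * LL := by rw [hLL]; ring
    rw [h1]
    exact mul_le_mul_of_nonneg_right hcc₀ hLL0.le
  set H : ℤ := ⌊X'⌋ with hH
  have hH1 : 1 ≤ H := Int.le_floor.2 (by exact_mod_cast hX1)
  have hHr1 : (1 : ℝ) ≤ H := by exact_mod_cast hH1
  have hHX : (H : ℝ) ≤ X' := Int.floor_le _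
  have hlogH : Real.log (((2 * d).factorial : ℝ) * (H : ℝ) ^ (2 * d)) ≤
      (2 * d + 1) * (c₀ * LL) := by
    rw [Real.log_mul (by positivity) (by positivity), Real.log_pow]
    have h1 : Real.log H ≤ c₀ * LL := (Real.log_le_log (by linarith) hHX).trans hlogX
    have h2 : ((2 * d : ℕ) : ℝ) * Real.log H ≤ (2 * d) * (c₀ * LL) := by
      push_cast
      exact mul_le_mul_of_nonneg_left h1 (by positivity)
    linarith
  -- the exceptional zeros
  have hEl : ∀ l : Fin k, ∃ Z : Finset ℂ, Z.card ≤ ml l * d ∧ ∀ F, Gd d H F →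
      RelR A θ (κ l) (2 * C * k) (c₁ / k * LL) F → ∃ z ∈ Z, aeval z F = 0 := by
    intro l
    refine exists_zeros hd hA2d (hκ l).1 (hκ l).2 hH1 hlogH (hml l)
      (by positivity) ?_
    calc 2 * ((d : ℝ) * ((ml l : ℝ) + 1) * (((ml l : ℝ) + 2) ^ 2 * ((2 * d + 1) * (c₀ * LL))))
        ≤ 2 * ((d : ℝ) * ((m : ℝ) + 1) * (((m : ℝ) + 2) ^ 2 * ((2 * d + 1) * (c₀ * LL)))) := by
          have := hmlm l
          gcongr
      _ = ((2 * (d * ((m : ℝ) + 1) * (((m : ℝ) + 2) ^ 2 * (2 * d + 1)))) * c₀) * LL := by ring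
      _ = c₁ / k * LL := by
          congr 1
          rw [hc₀]
          field_simp
  choose El hEl1 hEl2 using hEl
  refine ⟨univ.biUnion El, ?_, ?_⟩
  · refine card_biUnion_le.trans ?_
    have h1 := sum_le_sum fun l (_ : l ∈ univ) => hEl1 l
    omega
  · intro F hF1 hF2 hFc hFz B hB
    -- the primitive part
    set P : ℤ[X] := F.primPart with hP
    set g : ℤ := F.content with hg
    have hFne : F ≠ 0 := by
      intro h
      rw [h, natDegree_zero] at hF1
      omega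
    have hg0 : g ≠ 0 := by
      rw [hg, Ne, content_eq_zero_iff]
      exact hFne
    have hFP : F = Polynomial.C g * P := F.eq_C_content_mul_primPart
    have hFPe : ∀ a, F.eval a = g * P.eval a := by
      intro a
      conv_lhs => rw [hFP]
      rw [eval_mul, eval_C]
    have hPdeg : P.natDegree = F.natDegree := natDegree_primPart F
    have hgood : Gd d H P := by
      refine ⟨F.isPrimitive_primPart, by omega, by rw [hPdeg]; exact hF2.trans hd0,
        fun j => ?_⟩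
      rw [hH]
      apply Int.le_floor.2
      have h1 : |F.coeff j| = |g| * |P.coeff j| := by
        conv_lhs => rw [hFP]
        rw [coeff_C_mul, abs_mul]
      have h2 : |P.coeff j| ≤ |F.coeff j| := by
        rw [h1]
        have h3 : 1 ≤ |g| := Int.one_le_abs hg0
        nlinarith [abs_nonneg (P.coeff j)]
      have h3 := hFc j
      have h4 : (|P.coeff j| : ℝ) ≤ (|F.coeff j| : ℝ) := by exact_mod_cast h2
      push_cast
      exact h4.trans h3
    have hPz : ∀ z ∈ univ.biUnion El, aeval z P ≠ 0 := by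
      intro z hz h
      apply hFz z hz
      rw [hFP, map_mul, h, mul_zero]
    -- the values
    have hdd0 : (0 : ℝ) < 2 * d := by linarith
    have hVc : N / (2 * d) ≤ ((fz A P).card : ℝ) := by
      have h1 := card_fz hgood.2.1 hgood.2.2.1 hA2d
      have h2 : N ≤ 2 * d * ((fz A P).card : ℝ) := by
        rw [hN]
        exact_mod_cast h1
      rw [div_le_iff₀ hdd0]
      linarith
    clear_value P g
    have hVne : (fz A P).Nonempty := by
      rw [← card_pos]
      have h2 : 0 < N / (2 * d) := div_pos hNpos hdd0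
      have h3 : (0 : ℝ) < ((fz A P).card : ℝ) := by linarith
      exact_mod_cast h3
    -- the `k`-fold sumset is large
    have hlarge : c₁ * ((A.card : ℕ) : ℝ) ^ (-(1 : ℝ)) * ∏ _l : Fin k, ((fz A P).card : ℝ) ≤
        ((recSum (fun _ : Fin k => fz A P)).card : ℝ) := by
      by_contra hlt
      push Not at hlt
      obtain ⟨l, -, hl1, hl2⟩ := hnz A.card (fun _ : Fin k => fz A P) (fun _ => hVne)
        (fun _ => fz_zero A _) (fun _ => card_fz_le A _) hlt
      obtain ⟨z, hz, hz0⟩ := hEl2 l P hgood (rel_of_nr hk0 hC hLLc₁ hl1 hl2)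
      exact hPz z (mem_biUnion.2 ⟨l, mem_univ _, hz⟩) hz0
    -- the conclusion
    have hS : c₁ / (2 * d) ^ k * N ^ ((k : ℝ) - 1) ≤ ((hSum k (rvals F A)).card : ℝ) :=
      hSum_large hNpos hdd0 hc₁ hg0 hFPe hVc hlarge
    have h1 := expandAdd k hk0' (rvals F A) (c₁ / (2 * d) ^ k) N ε
      (div_pos hc₁ (pow_pos hdd0 k)) hN1 hkε hS B hB
    refine le_trans ?_ h1
    rw [← hc₂]
    exact mul_le_mul_of_nonneg_right hcc₂
      (Real.rpow_nonneg (mul_nonneg hNpos.le (Nat.cast_nonneg _)) _)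

end Pool.Agent.Helper99.RT
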