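import Mathlib

/-!
# Project RT (MP_120218_co): conditions satisfied by many elements (Cauchy-Schwarz)
-/

set_option autoImplicit false

open Finset

namespace Pool.Agent.Helper99.RT

section

variable {ι : Type*} (I : Finset ι) (wt : ι → ℝ) (Cd : ι → ℤ → Prop)

open Classical in
/-- the weight of the conditions satisfied by `a` -/
noncomputable def Fc (a : ℤ) : ℝ := ∑ x ∈ I, if Cd x a then wt x else 0

open Classical in
/-- the elements of `A` which satisfy many conditions -/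
noncomputable def Zc (κ : ℝ) (A : Finset ℤ) : Finset ℤ :=
  A.filter (fun a => κ / 2 * ∑ x ∈ I, wt x ≤ Fc I wt Cd a)

variable {I wt Cd}

theorem Zc_subset (κ : ℝ) (A : Finset ℤ) : Zc I wt Cd κ A ⊆ A := by
  unfold Zc
  exact filter_subset _ _

theorem mem_Zc {κ : ℝ} {A : Finset ℤ} {a : ℤ} :
    a ∈ Zc I wt Cd κ A ↔ a ∈ A ∧ κ / 2 * ∑ x ∈ I, wt x ≤ Fc I wt Cd a := by
  unfold Zc
  rw [mem_filter]

theorem Fc_le (hwt : ∀ x ∈ I, 0 ≤ wt x) (a : ℤ) : Fc I wt Cd a ≤ ∑ x ∈ I, wt x := by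
  unfold Fc
  apply sum_le_sum
  intro x hx
  split_ifs
  · exact le_rfl
  · exact hwt x hx

open Classical in
theorem Zc_card {κ : ℝ} (hκ : 0 < κ) {A : Finset ℤ} (hwt : ∀ x ∈ I, 0 ≤ wt x)
    (h : ∀ x ∈ I, κ * (A.card : ℝ) ≤ ((A.filter (fun a => Cd x a)).card : ℝ))
    (hW : 0 < ∑ x ∈ I, wt x) :
    κ / 2 * (A.card : ℝ) ≤ ((Zc I wt Cd κ A).card : ℝ) := by
  set W := ∑ x ∈ I, wt x with hWdef
  have h1 : κ * (A.card : ℝ) * W ≤ ∑ a ∈ A, Fc I wt Cd a := by
    unfold Fc
    rw [sum_comm]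
    have h2 : ∀ x ∈ I, κ * (A.card : ℝ) * wt x ≤
        ∑ a ∈ A, if Cd x a then wt x else 0 := by
      intro x hx
      rw [← sum_filter, sum_const, nsmul_eq_mul]
      exact mul_le_mul_of_nonneg_right (h x hx) (hwt x hx)
    calc κ * (A.card : ℝ) * W = ∑ x ∈ I, κ * (A.card : ℝ) * wt x := by
          rw [← mul_sum]
      _ ≤ _ := sum_le_sum h2
  have h3 : ∑ a ∈ A, Fc I wt Cd a ≤ (Zc I wt Cd κ A).card * W + A.card * (κ / 2 * W) := by
    have h4 : ∀ a ∈ A, Fc I wt Cd a ≤ (if a ∈ Zc I wt Cd κ A then W else 0) + κ / 2 * W := by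
      intro a ha
      split_ifs with hz
      · have : 0 ≤ κ / 2 * W := by positivity
        linarith [Fc_le (Cd := Cd) hwt a]
      · have : Fc I wt Cd a < κ / 2 * W := by
          by_contra hlt
          push Not at hlt
          exact hz (mem_Zc.2 ⟨ha, hlt⟩)
        linarith
    refine (sum_le_sum h4).trans ?_
    rw [sum_add_distrib, ← sum_filter, sum_const, sum_const, nsmul_eq_mul, nsmul_eq_mul]
    have h5 : A.filter (fun a => a ∈ Zc I wt Cd κ A) = Zc I wt Cd κ A := by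
      ext a
      rw [mem_filter]
      exact ⟨fun h => h.2, fun h => ⟨Zc_subset _ _ h, h⟩⟩
    rw [h5]
  have h6 : κ / 2 * (A.card : ℝ) * W ≤ (Zc I wt Cd κ A).card * W := by nlinarith
  exact le_of_mul_le_mul_right h6 hW

open Classical in
/-- **Trivial cells.**  A set of elements of `Zc` whose different elements have few common
conditions has at most `8/κ²` elements. -/
theorem cellsC {κ : ℝ} (hκ : 0 < κ) {A : Finset ℤ} (hwt : ∀ x ∈ I, 0 ≤ wt x)
    {w : ℝ} (hw : w ≤ κ ^ 2 * (∑ x ∈ I, wt x) / 8) (hw0 : 0 ≤ w)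
    (hW : 0 < ∑ x ∈ I, wt x) {G : Finset ℤ} (hG : G ⊆ Zc I wt Cd κ A)
    (hd : ∀ a ∈ G, ∀ a' ∈ G, a ≠ a' →
      (∑ x ∈ I, if Cd x a ∧ Cd x a' then wt x else 0) ≤ w) :
    (G.card : ℝ) ≤ 8 / κ ^ 2 := by
  set W := ∑ x ∈ I, wt x with hWdef
  -- number of elements of `G` satisfying a condition
  set n : ι → ℝ := fun x => ((G.filter (fun a => Cd x a)).card : ℝ) with hn
  have h1 : ∑ a ∈ G, Fc I wt Cd a = ∑ x ∈ I, wt x * n x := by
    unfold Fc
    rw [sum_comm]
    apply sum_congr rfl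
    intro x _
    rw [← sum_filter, sum_const, nsmul_eq_mul, hn]
    ring
  have h2 : (G.card : ℝ) * (κ / 2 * W) ≤ ∑ a ∈ G, Fc I wt Cd a := by
    rw [← nsmul_eq_mul, ← sum_const]
    exact sum_le_sum fun a ha => (mem_Zc.1 (hG ha)).2
  have h3 : (∑ x ∈ I, wt x * n x) ^ 2 ≤
      (∑ x ∈ I, wt x) * ∑ x ∈ I, wt x * n x ^ 2 := by
    apply Finset.sum_sq_le_sum_mul_sum_of_sq_le_mul
    · exact hwt
    · intro x hx
      exact mul_nonneg (hwt x hx) (sq_nonneg _)
    · intro x _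
      apply le_of_eq
      ring
  have h4 : ∑ x ∈ I, wt x * n x ^ 2 =
      ∑ a ∈ G, ∑ a' ∈ G, ∑ x ∈ I,
        if Cd x a ∧ Cd x a' then wt x else 0 := by
    have h5 : ∀ x ∈ I, wt x * n x ^ 2 =
        ∑ a ∈ G, ∑ a' ∈ G, if Cd x a ∧ Cd x a' then wt x else 0 := by
      intro x _
      have h6 : ∀ a ∈ G, (∑ a' ∈ G, if Cd x a ∧ Cd x a' then wt x else 0) =
          if Cd x a then n x * wt x else 0 := by
        intro a _
        by_cases hc : Cd x a
        · simp only [hc, true_and, if_true]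
          rw [← sum_filter, sum_const, nsmul_eq_mul]
        · simp [hc]
      rw [sum_congr rfl h6, ← sum_filter, sum_const, nsmul_eq_mul]
      simp only [hn]
      ring
    rw [sum_congr rfl h5, sum_comm]
    apply sum_congr rfl
    intro a _
    rw [sum_comm]
  have h7 : ∑ a ∈ G, ∑ a' ∈ G, ∑ x ∈ I,
        (if Cd x a ∧ Cd x a' then wt x else 0) ≤
      (G.card : ℝ) * W + (G.card : ℝ) ^ 2 * w := by
    have h8 : ∀ a ∈ G, ∀ a' ∈ G, (∑ x ∈ I,
        if Cd x a ∧ Cd x a' then wt x else 0) ≤ (if a = a' then W else 0) + w := by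
      intro a ha a' ha'
      by_cases heq : a = a'
      · subst heq
        rw [if_pos rfl]
        have : (∑ x ∈ I, if Cd x a ∧ Cd x a then wt x else 0) = Fc I wt Cd a := by
          unfold Fc
          simp only [and_self]
        rw [this]
        linarith [Fc_le (Cd := Cd) hwt a]
      · rw [if_neg heq, zero_add]
        exact hd a ha a' ha' heq
    calc _ ≤ ∑ a ∈ G, ∑ a' ∈ G, ((if a = a' then W else 0) + w) :=
          sum_le_sum fun a ha => sum_le_sum fun a' ha' => h8 a ha a' ha'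
      _ = (G.card : ℝ) * W + (G.card : ℝ) ^ 2 * w := by
          simp_rw [sum_add_distrib, sum_const, nsmul_eq_mul]
          have : ∑ a ∈ G, ∑ a' ∈ G, (if a = a' then W else 0) = (G.card : ℝ) * W := by
            have h9 : ∀ a ∈ G, (∑ a' ∈ G, if a = a' then W else 0) = W := by
              intro a ha
              rw [sum_ite_eq, if_pos ha]
            rw [sum_congr rfl h9, sum_const, nsmul_eq_mul]
          rw [this]
          ring
  rcases G.eq_empty_or_nonempty with hGe | hGne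
  · rw [hGe]
    simp only [card_empty, Nat.cast_zero]
    positivity
  have hGp : (0 : ℝ) < G.card := by exact_mod_cast card_pos.2 hGne
  rw [← hWdef, ← h1, h4] at h3
  have h10 : ((G.card : ℝ) * (κ / 2 * W)) ^ 2 ≤ (∑ a ∈ G, Fc I wt Cd a) ^ 2 :=
    pow_le_pow_left₀ (by positivity) h2 2
  have h11 : ((G.card : ℝ) * (κ / 2 * W)) ^ 2 ≤
      W * ((G.card : ℝ) * W + (G.card : ℝ) ^ 2 * w) :=
    h10.trans (h3.trans (mul_le_mul_of_nonneg_left h7 hW.le))
  have h12 : (G.card : ℝ) ^ 2 * w ≤ (G.card : ℝ) ^ 2 * (κ ^ 2 * W / 8) :=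
    mul_le_mul_of_nonneg_left hw (by positivity)
  have h13 : (G.card : ℝ) * W * W * (G.card * κ ^ 2) ≤ (G.card : ℝ) * W * W * 8 := by nlinarith
  have h14 : (G.card : ℝ) * κ ^ 2 ≤ 8 := le_of_mul_le_mul_left h13 (by positivity)
  rw [le_div_iff₀ (by positivity)]
  exact h14

end

end Pool.Agent.Helper99.RT
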