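import Pool.Agent.Helper99.RT.CS
import Pool.Agent.Helper88.RT.Lab
import Pool.Agent.Helper26.TR.Iface

/-!
# Project RT (MP_120218_co): the cells of reciprocals

`Cell D b b'` says that `D (1/b - 1/b')` is an integer.  Two elements of a cell which share many
leading digits (counted twice at their common valuation) are equal, and the valuations of the
elements of a cell are close.
-/

set_option autoImplicit false

open Finset

namespace Pool.Agent.Helper99.RT

open Pool.Agent.Helper26.TR Pool.Agent.Helper88.RT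

theorem cell_int {D : ℕ} {b b' : ℤ} (hb : b ≠ 0) (hb' : b' ≠ 0) (h : Cell D b b') :
    ∃ z : ℤ, (D : ℤ) * (b' - b) = z * (b * b') ∧ |(z : ℝ)| ≤ 2 * D := by
  obtain ⟨z, hz⟩ := h
  have hbq : (b : ℚ) ≠ 0 := by exact_mod_cast hb
  have hbq' : (b' : ℚ) ≠ 0 := by exact_mod_cast hb'
  refine ⟨z, ?_, ?_⟩
  · have h1 : (D : ℚ) * ((b' : ℚ) - b) = z * (b * b') := by
      rw [← hz]
      field_simp
    exact_mod_cast h1
  · have h2 : (z : ℝ) = (D : ℝ) * ((b : ℝ)⁻¹ - (b' : ℝ)⁻¹) := by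
      have := congrArg (fun x : ℚ => (x : ℝ)) hz
      push_cast at this
      exact this.symm
    rw [h2, abs_mul, Nat.abs_cast]
    have h3 : ∀ x : ℤ, x ≠ 0 → |(x : ℝ)⁻¹| ≤ 1 := by
      intro x hx
      rw [abs_inv]
      apply inv_le_one_of_one_le₀
      exact_mod_cast Int.one_le_abs hx
    have h4 : |(b : ℝ)⁻¹ - (b' : ℝ)⁻¹| ≤ 2 := by
      have h5 : |(b : ℝ)⁻¹ - (b' : ℝ)⁻¹| ≤ |(b : ℝ)⁻¹| + |(b' : ℝ)⁻¹| := abs_sub _ _
      linarith [h3 b hb, h3 b' hb']
    have h6 : (0 : ℝ) ≤ D := Nat.cast_nonneg _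
    nlinarith

theorem cell_trans {D : ℕ} {b a a' : ℤ} (h : Cell D b a) (h' : Cell D b a') : Cell D a a' := by
  obtain ⟨z, hz⟩ := h
  obtain ⟨z', hz'⟩ := h'
  refine ⟨z' - z, ?_⟩
  push_cast
  rw [← hz, ← hz']
  ring

theorem log_Dn (n : ℕ) (lam : ℕ → ℕ) : Real.log (Dn n lam) = Wt n lam := by
  unfold Dn Wt
  push_cast
  rw [Real.log_prod (fun q hq => by
    have := (mem_filter.1 hq).2.pos
    positivity)]
  apply sum_congr rfl
  intro q _
  rw [Real.log_pow]

/-- the conditions `(p, t)` -/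
def idxr (T : Finset ℕ) (e : ℕ → ℕ) (β : ℕ → ℤ) : Finset (Σ _ : ℕ, ℕ) :=
  T.sigma (fun p => Icc 1 (e p - 2 * padicValInt p (β p)))

/-- `a` satisfies the condition `(p, t)` -/
def Cdr (β : ℕ → ℤ) (x : Σ _ : ℕ, ℕ) (a : ℤ) : Prop :=
  ((x.1 : ℤ) ^ (2 * padicValInt x.1 (β x.1) + x.2)) ∣ a - β x.1

theorem W1a_eq (T : Finset ℕ) (e : ℕ → ℕ) (β : ℕ → ℤ) :
    W1a T e β = ∑ x ∈ idxr T e β, Real.log (x.1 : ℝ) := by
  unfold W1a idxr
  rw [sum_sigma]
  apply sum_congr rfl
  intro p _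
  simp only [sum_const, Nat.card_Icc, nsmul_eq_mul, Nat.add_sub_cancel]

open Classical in
/-- every condition is popular -/
theorem cdr_card {κ : ℝ} {A : Finset ℤ} {T : Finset ℕ} {e : ℕ → ℕ} {β : ℕ → ℤ}
    (h : Pop κ A T e β) {x : Σ _ : ℕ, ℕ} (hx : x ∈ idxr T e β) :
    κ * (A.card : ℝ) ≤ ((A.filter (fun a => Cdr β x a)).card : ℝ) := by
  unfold idxr at hx
  rw [mem_sigma, mem_Icc] at hx
  refine (h.2.2 x.1 hx.1).trans ?_
  apply Nat.cast_le.2
  apply card_le_card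
  intro a ha
  rw [mem_filter] at ha ⊢
  refine ⟨ha.1, ?_⟩
  unfold Cdr
  exact (pow_dvd_pow _ (by omega)).trans ha.2

/-- an element satisfying a condition has the valuation of `β` -/
theorem val_le {p : ℕ} (hp : p.Prime) {a β : ℤ} (ha : a ≠ 0) (hβ : β ≠ 0) {s : ℕ}
    (hs : padicValInt p β < s) (h : ((p : ℤ) ^ s) ∣ a - β) :
    a.natAbs.factorization p ≤ padicValInt p β := by
  have := Fact.mk hp
  by_contra hcon
  push Not at hcon
  have h1 : p ^ (padicValInt p β + 1) ∣ a.natAbs :=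
    (hp.pow_dvd_iff_le_factorization (Int.natAbs_ne_zero.2 ha)).2 hcon
  have h2 : ((p : ℤ) ^ (padicValInt p β + 1)) ∣ a := by
    have h3 : ((p ^ (padicValInt p β + 1) : ℕ) : ℤ) ∣ a := Int.natCast_dvd.2 h1
    push_cast at h3
    exact h3
  have h4 : ((p : ℤ) ^ (padicValInt p β + 1)) ∣ β := by
    have h5 := dvd_sub h2 ((pow_dvd_pow (p : ℤ) (by omega : padicValInt p β + 1 ≤ s)).trans h)
    simpa using h5
  rw [padicValInt_dvd_iff] at h4
  rcases h4 with h4 | h4
  · exact hβ h4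
  · omega

/-- the common conditions of two different elements of a cell -/
theorem pair_r {T : Finset ℕ} {e : ℕ → ℕ} {β : ℕ → ℤ} (hT : ∀ p ∈ T, p.Prime)
    (hβ : ∀ p ∈ T, β p ≠ 0) {n : ℕ} {lam : ℕ → ℕ} {a a' : ℤ} (ha : a ≠ 0) (ha' : a' ≠ 0)
    (hne : a ≠ a') (hc : Cell (Dn n lam) a a') [∀ x, Decidable (Cdr β x a ∧ Cdr β x a')] :
    (∑ x ∈ idxr T e β, if Cdr β x a ∧ Cdr β x a' then Real.log (x.1 : ℝ) else 0) ≤
      Wt n lam + Real.log 2 := by
  obtain ⟨z, hz, hzb⟩ := cell_int ha ha' hc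
  have hD : 0 < Dn n lam := Dn_pos n lam
  have hz0 : z ≠ 0 := by
    intro h0
    rw [h0, zero_mul] at hz
    rcases mul_eq_zero.1 hz with h | h
    · have : Dn n lam = 0 := by exact_mod_cast h
      omega
    · exact hne (by linarith)
  have hzn : z.natAbs ≠ 0 := Int.natAbs_ne_zero.2 hz0
  have key : (∑ x ∈ idxr T e β, if Cdr β x a ∧ Cdr β x a' then Real.log (x.1 : ℝ) else 0) ≤
      ∑ p ∈ T, (z.natAbs.factorization p : ℝ) * Real.log p := by
    unfold idxr
    rw [sum_sigma]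
    apply sum_le_sum
    intro p hp
    have hc1 : ∀ t ∈ (Icc 1 (e p - 2 * padicValInt p (β p))).filter
        (fun t => Cdr β ⟨p, t⟩ a ∧ Cdr β ⟨p, t⟩ a'),
        Real.log ((⟨p, t⟩ : Σ _ : ℕ, ℕ).1 : ℝ) = Real.log (p : ℝ) := fun t _ => rfl
    rw [← sum_filter, sum_congr rfl hc1, sum_const, nsmul_eq_mul]
    apply mul_le_mul_of_nonneg_right _ (Real.log_natCast_nonneg _)
    have hsub : (Icc 1 (e p - 2 * padicValInt p (β p))).filter
        (fun t => Cdr β ⟨p, t⟩ a ∧ Cdr β ⟨p, t⟩ a') ⊆ Icc 1 (z.natAbs.factorization p) := by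
      intro t ht
      rw [mem_filter, mem_Icc] at ht
      rw [mem_Icc]
      refine ⟨ht.1.1, ?_⟩
      have h1 : ((p : ℤ) ^ (2 * padicValInt p (β p) + t)) ∣ a - β p := ht.2.1
      have h2 : ((p : ℤ) ^ (2 * padicValInt p (β p) + t)) ∣ a' - β p := ht.2.2
      have hlt : padicValInt p (β p) < 2 * padicValInt p (β p) + t := by omega
      have h3 := val_le (hT p hp) ha (hβ p hp) hlt h1
      have h4 := val_le (hT p hp) ha' (hβ p hp) hlt h2
      have h5 : ((p : ℤ) ^ (2 * padicValInt p (β p) + t)) ∣ z * (a * a') := by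
        rw [← hz]
        apply Dvd.dvd.mul_left
        have h6 := dvd_sub h2 h1
        have h7 : a' - β p - (a - β p) = a' - a := by ring
        rwa [h7] at h6
      have h8 : p ^ (2 * padicValInt p (β p) + t) ∣ z.natAbs * (a.natAbs * a'.natAbs) := by
        have h9 := Int.natAbs_dvd_natAbs.mpr h5
        rwa [Int.natAbs_pow, Int.natAbs_natCast, Int.natAbs_mul, Int.natAbs_mul] at h9
      have han : a.natAbs ≠ 0 := Int.natAbs_ne_zero.2 ha
      have han' : a'.natAbs ≠ 0 := Int.natAbs_ne_zero.2 ha'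
      rw [(hT p hp).pow_dvd_iff_le_factorization (mul_ne_zero hzn (mul_ne_zero han han')),
        Nat.factorization_mul hzn (mul_ne_zero han han'), Nat.factorization_mul han han',
        Finsupp.add_apply, Finsupp.add_apply] at h8
      omega
    have := card_le_card hsub
    rw [Nat.card_Icc, Nat.add_sub_cancel] at this
    exact_mod_cast this
  refine key.trans ((sum_fact_le hzn).trans ?_)
  have h1 : (z.natAbs : ℝ) ≤ 2 * (Dn n lam : ℝ) := by
    rw [Nat.cast_natAbs]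
    push_cast
    exact hzb
  have h2 : (0 : ℝ) < z.natAbs := by exact_mod_cast Nat.pos_of_ne_zero hzn
  have h3 : (0 : ℝ) < Dn n lam := by exact_mod_cast hD
  have h4 := Real.log_le_log h2 h1
  rw [Real.log_mul (by norm_num) h3.ne', log_Dn] at h4
  linarith

theorem val_Dn {n : ℕ} {lam : ℕ → ℕ} {q : ℕ} (hq : q.Prime) :
    (Dn n lam).factorization q ≤ lam q := by
  unfold Dn
  rw [Nat.factorization_prod (fun q' hq' => pow_ne_zero _ (mem_filter.1 hq').2.pos.ne'),
    Finsupp.finsetSum_apply]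
  have h1 : ∀ q' ∈ (range n).filter Nat.Prime, (q' ^ lam q').factorization q =
      if q' = q then lam q else 0 := by
    intro q' hq'
    rw [Nat.factorization_pow, (mem_filter.1 hq').2.factorization]
    by_cases h : q' = q
    · subst h; simp
    · simp [h]
  rw [sum_congr rfl h1, sum_ite_eq']
  split_ifs
  · exact le_rfl
  · exact Nat.zero_le _

/-- the valuations in a cell -/
theorem cell_val {n : ℕ} {lam : ℕ → ℕ} {b b' : ℤ} (hb : b ≠ 0) (hb' : b' ≠ 0)
    (hc : Cell (Dn n lam) b b') {q : ℕ} (hq : q.Prime)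
    (hlt : padicValInt q b < padicValInt q b') : padicValInt q b' ≤ lam q := by
  have := Fact.mk hq
  obtain ⟨z, hz, -⟩ := cell_int hb hb' hc
  have hD : 0 < Dn n lam := Dn_pos n lam
  by_contra hcon
  push Not at hcon
  set v := padicValInt q b with hv
  set w := padicValInt q b' with hw
  have h1 : (q : ℤ) ^ v ∣ b := padicValInt_dvd_iff v b |>.2 (Or.inr le_rfl)
  have h2 : (q : ℤ) ^ w ∣ b' := padicValInt_dvd_iff w b' |>.2 (Or.inr le_rfl)
  obtain ⟨c, hc1⟩ := h1
  obtain ⟨c', hc2⟩ := h2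
  have hqp : Prime (q : ℤ) := Nat.prime_iff_prime_int.1 hq
  have hqv : (q : ℤ) ^ v ≠ 0 := pow_ne_zero _ hqp.ne_zero
  have hcq : ¬ (q : ℤ) ∣ c := by
    intro hd
    have h3 : (q : ℤ) ^ (v + 1) ∣ b := by
      rw [hc1, pow_succ]
      exact mul_dvd_mul_left _ hd
    rw [padicValInt_dvd_iff] at h3
    rcases h3 with h3 | h3
    · exact hb h3
    · omega
  -- `D (q^(w-v) c' - c) = z q^w c c'`
  have hwv : (q : ℤ) ^ w = (q : ℤ) ^ v * (q : ℤ) ^ (w - v) := by
    rw [← pow_add]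
    congr 1
    omega
  have h4 : (Dn n lam : ℤ) * ((q : ℤ) ^ (w - v) * c' - c) = (q : ℤ) ^ w * (z * (c * c')) := by
    apply mul_left_cancel₀ hqv
    have h5 : (q : ℤ) ^ v * ((Dn n lam : ℤ) * ((q : ℤ) ^ (w - v) * c' - c)) =
        (Dn n lam : ℤ) * (b' - b) := by
      rw [hc1, hc2, hwv]; ring
    rw [h5, hz, hc1, hc2]
    ring
  have h6 : ¬ (q : ℤ) ∣ ((q : ℤ) ^ (w - v) * c' - c) := by
    intro hd
    apply hcq
    have h7 : (q : ℤ) ∣ (q : ℤ) ^ (w - v) * c' :=
      (dvd_pow_self _ (by omega)).mul_right _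
    have h8 := dvd_sub h7 hd
    simpa using h8
  have h9 : (q : ℤ) ^ w ∣ (Dn n lam : ℤ) := by
    have h10 : (q : ℤ) ^ w ∣ (Dn n lam : ℤ) * ((q : ℤ) ^ (w - v) * c' - c) := by
      rw [h4]; exact dvd_mul_right _ _
    have hcop : IsCoprime ((q : ℤ) ^ w) ((q : ℤ) ^ (w - v) * c' - c) :=
      IsCoprime.pow_left ((Prime.coprime_iff_not_dvd hqp).2 h6)
    exact hcop.dvd_of_dvd_mul_right h10
  have h11 : q ^ w ∣ Dn n lam := by exact_mod_cast h9
  rw [hq.pow_dvd_iff_le_factorization hD.ne'] at h11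
  have := val_Dn (n := n) (lam := lam) hq
  omega

theorem cell_symm {D : ℕ} {b b' : ℤ} (h : Cell D b b') : Cell D b' b := by
  obtain ⟨z, hz⟩ := h
  refine ⟨-z, ?_⟩
  push_cast
  rw [← hz]
  ring

/-- the elements of a cell are close -/
theorem cell_close {n : ℕ} {lam : ℕ → ℕ} (hlam : ∀ q, n ≤ q → lam q = 0) {L : ℝ} (hL : 0 < L)
    {b b' : ℤ} (hb : b ≠ 0) (hb' : b' ≠ 0) (hc : Cell (Dn n lam) b b') :
    Close (Ures 1 1 L (Wt n lam) lam) b b' := by
  intro q hq
  have hlog : 0 < Real.log (q : ℝ) := Real.log_pos (by exact_mod_cast hq.one_lt)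
  have h1 : |((padicValInt q b : ℤ) - padicValInt q b')| ≤ (lam q : ℤ) := by
    rcases lt_trichotomy (padicValInt q b) (padicValInt q b') with h | h | h
    · have h2 := cell_val hb hb' hc hq h
      rw [abs_le]
      constructor <;> omega
    · rw [h]; simp
    · have h2 := cell_val hb' hb (cell_symm hc) hq h
      rw [abs_le]
      constructor <;> omega
  unfold Ures
  by_cases h0 : lam q = 0
  · rw [if_pos h0]
    rw [h0] at h1
    push_cast at h1 ⊢
    omega
  · rw [if_neg h0]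
    have hqn : q < n := by
      by_contra h
      exact h0 (hlam q (not_lt.1 h))
    have hl1 : (1 : ℝ) ≤ lam q := by exact_mod_cast Nat.one_le_iff_ne_zero.2 h0
    have hterm : (lam q : ℝ) * Real.log q ≤ Wt n lam := by
      unfold Wt
      exact single_le_sum (f := fun q : ℕ => (lam q : ℝ) * Real.log q)
        (fun i _ => mul_nonneg (Nat.cast_nonneg _) (Real.log_natCast_nonneg i))
        (mem_filter.2 ⟨mem_range.2 hqn, hq⟩)
    have hWpos : 0 < Wt n lam := by nlinarith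
    have h3 : 0 < ⌈1 * Wt n lam / (L * Real.log q)⌉₊ := by
      rw [Nat.ceil_pos]
      positivity
    push_cast
    have h4 : (0 : ℤ) < ((⌈1 * Wt n lam / (L * Real.log q)⌉₊ : ℕ) : ℤ) := by exact_mod_cast h3
    have h5 : (1 : ℤ) * (lam q : ℤ) = lam q := one_mul _
    linarith

end Pool.Agent.Helper99.RT
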