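import Pool.Agent.Helper99.RT.NR
import Pool.Agent.Helper99.RT.Main
import Pool.Agent.Helper99.TR.ZerD
import Pool.Agent.Helper34.TR.MixT

/-!
# Projects TR and RT (MP_120218_co) together: products of polynomial values and sums of their
reciprocals, with one set of exceptional zeros
-/

set_option autoImplicit false

open Finset Polynomial

namespace Pool.Agent.Helper99.RT

open Pool.Agent.Helper26.TR Pool.Agent.Helper88.NZ
open Pool.Agent.Helper99.TR (Adm adm_mono polyProd mem_polyProd TRZ exceptional_zeros)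

/-- the sums `1/F₁(a₁) + ⋯ + 1/F_k(a_k) + b`, `a_i ∈ A`, `F_i(a_i) ≠ 0`, `b ∈ B` -/
noncomputable def polyRec {k : ℕ} (F : Fin k → ℤ[X]) (A : Finset ℤ) (B : Finset ℂ) :
    Finset ℂ := by
  classical
  exact ((Fintype.piFinset fun i : Fin k => A.filter (fun a => (F i).eval a ≠ 0)) ×ˢ B).image
    (fun p => (∑ i, (((F i).eval (p.1 i) : ℤ) : ℂ)⁻¹) + p.2)

theorem mem_polyRec {k : ℕ} (F : Fin k → ℤ[X]) (A : Finset ℤ) (B : Finset ℂ) (y : ℂ) :
    y ∈ polyRec F A B ↔ ∃ a : Fin k → ℤ, (∀ i, a i ∈ A ∧ (F i).eval (a i) ≠ 0) ∧ ∃ b ∈ B,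
      (∑ i, (((F i).eval (a i) : ℤ) : ℂ)⁻¹) + b = y := by
  classical
  unfold polyRec
  rw [mem_image]
  constructor
  · rintro ⟨⟨a, b⟩, hp, rfl⟩
    rw [mem_product, Fintype.mem_piFinset] at hp
    exact ⟨a, fun i => mem_filter.1 (hp.1 i), b, hp.2, rfl⟩
  · rintro ⟨a, ha, b, hb, rfl⟩
    refine ⟨(a, b), ?_, rfl⟩
    rw [mem_product, Fintype.mem_piFinset]
    exact ⟨fun i => mem_filter.2 (ha i), hb⟩

theorem smm_sub {k : ℕ} (F : Fin (k + 1) → ℤ[X]) (A : Finset ℤ) (B : Finset ℂ) :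
    smm (rvals (F 0) A) (polyRec (Fin.tail F) A B) ⊆ polyRec F A B := by
  classical
  intro y hy
  rw [mem_smm] at hy
  obtain ⟨s, hs, t, ht, rfl⟩ := hy
  obtain ⟨a, ha, hFa, rfl⟩ := (mem_rvals _ _ _).1 hs
  obtain ⟨a', ha', b, hb, rfl⟩ := (mem_polyRec _ _ _ _).1 ht
  rw [mem_polyRec]
  refine ⟨Fin.cons a a', ?_, b, hb, ?_⟩
  · intro i
    refine Fin.cases ?_ (fun j => ?_) i
    · exact ⟨ha, hFa⟩
    · exact ha' j
  · rw [Fin.sum_univ_succ]
    simp only [Fin.cons_zero, Fin.cons_succ]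
    rw [add_assoc]
    rfl

/-- iterating the expansion -/
theorem iterA {A : Finset ℤ} (hA : A.Nonempty) {c δ : ℝ} (hc : 0 < c) (hc1 : c ≤ 1)
    (hδ : 0 ≤ δ) (Q : ℤ[X] → Prop)
    (hQ : ∀ F : ℤ[X], Q F → ∀ B : Finset ℂ, B.Nonempty →
      c * ((A.card : ℝ) * (B.card : ℝ)) ^ (1 - δ) ≤ ((smm (rvals F A) B).card : ℝ))
    (hδ1 : δ ≤ 1) :
    ∀ (n : ℕ) (F : Fin n → ℤ[X]), (∀ i, Q (F i)) → ∀ B : Finset ℂ, B.Nonempty →
      c ^ n * ((A.card : ℝ) ^ ((n : ℝ) - δ * (n : ℝ) ^ 2) * (B.card : ℝ) ^ (1 - (n : ℝ) * δ)) ≤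
        ((polyRec F A B).card : ℝ) := by
  classical
  intro n
  induction n with
  | zero =>
    intro F _ B hB
    have h1 : B ⊆ polyRec F A B := by
      intro b hb
      rw [mem_polyRec]
      exact ⟨Fin.elim0, fun i => i.elim0, b, hb, by simp⟩
    have h2 : (B.card : ℝ) ≤ ((polyRec F A B).card : ℝ) := by
      exact_mod_cast card_le_card h1
    refine le_trans (le_of_eq ?_) h2
    simp
  | succ n ih =>
    intro F hF B hB
    have hN1 : (1 : ℝ) ≤ A.card := by exact_mod_cast card_pos.2 hA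
    have hB1 : (1 : ℝ) ≤ B.card := by exact_mod_cast card_pos.2 hB
    have hN0 : (0 : ℝ) < A.card := by linarith
    have hB0 : (0 : ℝ) < B.card := by linarith
    set T : Finset ℂ := polyRec (Fin.tail F) A B with hT
    have h1 := ih (Fin.tail F) (fun i => hF i.succ) B hB
    rw [← hT] at h1
    have hTpos : (0 : ℝ) < T.card := by
      refine lt_of_lt_of_le ?_ h1
      positivity
    have hTne : T.Nonempty := by
      rw [← card_pos]
      exact_mod_cast hTpos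
    have h2 := hQ (F 0) (hF 0) T hTne
    have h3 : ((smm (rvals (F 0) A) T).card : ℝ) ≤ ((polyRec F A B).card : ℝ) := by
      exact_mod_cast card_le_card (smm_sub F A B)
    refine le_trans ?_ (h2.trans h3)
    have h4 : (c ^ n * ((A.card : ℝ) ^ ((n : ℝ) - δ * (n : ℝ) ^ 2) *
        (B.card : ℝ) ^ (1 - (n : ℝ) * δ))) ^ (1 - δ) ≤ (T.card : ℝ) ^ (1 - δ) :=
      Real.rpow_le_rpow (by positivity) h1 (by linarith)
    rw [Real.mul_rpow hN0.le hTpos.le]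
    have h5 : c ^ n ≤ (c ^ n) ^ (1 - δ) := by
      calc c ^ n = (c ^ n) ^ (1 : ℝ) := (Real.rpow_one _).symm
        _ ≤ (c ^ n) ^ (1 - δ) := Real.rpow_le_rpow_of_exponent_ge (by positivity)
            (pow_le_one₀ hc.le hc1) (by linarith)
    have h6 : (c ^ n * ((A.card : ℝ) ^ ((n : ℝ) - δ * (n : ℝ) ^ 2) *
        (B.card : ℝ) ^ (1 - (n : ℝ) * δ))) ^ (1 - δ) =
        (c ^ n) ^ (1 - δ) * ((A.card : ℝ) ^ (((n : ℝ) - δ * (n : ℝ) ^ 2) * (1 - δ)) *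
        (B.card : ℝ) ^ ((1 - (n : ℝ) * δ) * (1 - δ))) := by
      rw [Real.mul_rpow (by positivity) (by positivity),
        Real.mul_rpow (by positivity) (by positivity), ← Real.rpow_mul hN0.le,
        ← Real.rpow_mul hB0.le]
    rw [h6] at h4
    have hn0 : (0 : ℝ) ≤ n := Nat.cast_nonneg n
    calc c ^ (n + 1) * ((A.card : ℝ) ^ (((n + 1 : ℕ) : ℝ) - δ * ((n + 1 : ℕ) : ℝ) ^ 2) *
          (B.card : ℝ) ^ (1 - ((n + 1 : ℕ) : ℝ) * δ))
        ≤ c * (c ^ n * (((A.card : ℝ) ^ (1 - δ) *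
            (A.card : ℝ) ^ (((n : ℝ) - δ * (n : ℝ) ^ 2) * (1 - δ))) *
            (B.card : ℝ) ^ ((1 - (n : ℝ) * δ) * (1 - δ)))) := by
          rw [pow_succ, mul_comm (c ^ n) c, mul_assoc]
          apply mul_le_mul_of_nonneg_left _ hc.le
          apply mul_le_mul_of_nonneg_left _ (by positivity)
          apply mul_le_mul _ _ (by positivity) (by positivity)
          · rw [← Real.rpow_add hN0]
            apply Real.rpow_le_rpow_of_exponent_le hN1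
            push_cast
            nlinarith [mul_nonneg hδ hn0, mul_nonneg (mul_nonneg hδ hδ) (sq_nonneg (n : ℝ))]
          · apply Real.rpow_le_rpow_of_exponent_le hB1
            push_cast
            nlinarith [mul_nonneg hδ hn0, mul_nonneg (mul_nonneg hδ hδ) hn0]
      _ ≤ c * ((A.card : ℝ) ^ (1 - δ) * ((c ^ n) ^ (1 - δ) *
            ((A.card : ℝ) ^ (((n : ℝ) - δ * (n : ℝ) ^ 2) * (1 - δ)) *
            (B.card : ℝ) ^ ((1 - (n : ℝ) * δ) * (1 - δ))))) := by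
          apply mul_le_mul_of_nonneg_left _ hc.le
          have h7 : (A.card : ℝ) ^ (1 - δ) * ((c ^ n) ^ (1 - δ) *
              ((A.card : ℝ) ^ (((n : ℝ) - δ * (n : ℝ) ^ 2) * (1 - δ)) *
              (B.card : ℝ) ^ ((1 - (n : ℝ) * δ) * (1 - δ)))) =
              (c ^ n) ^ (1 - δ) * (((A.card : ℝ) ^ (1 - δ) *
              (A.card : ℝ) ^ (((n : ℝ) - δ * (n : ℝ) ^ 2) * (1 - δ))) *
              (B.card : ℝ) ^ ((1 - (n : ℝ) * δ) * (1 - δ))) := by ring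
          rw [h7]
          exact mul_le_mul_of_nonneg_right h5 (by positivity)
      _ ≤ c * ((A.card : ℝ) ^ (1 - δ) * (T.card : ℝ) ^ (1 - δ)) := by
          apply mul_le_mul_of_nonneg_left _ hc.le
          exact mul_le_mul_of_nonneg_left h4 (by positivity)

/-- the sums of reciprocals of values of several polynomials -/
theorem exceptional_poles (hT : RTZ) (k d : ℕ) (ε : ℝ) (hε : 0 < ε) :
    ∃ (m : ℕ) (c : ℝ), 0 < c ∧ ∀ A : Finset ℤ, A.Nonempty → ∃ Z : Finset ℂ, Z.card ≤ m ∧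
      ∀ F : Fin k → ℤ[X],
        (∀ i, Adm d ((A.card : ℝ) ^ (c * Real.log (Real.log A.card))) (F i)) →
        (∀ i, ∀ z ∈ Z, aeval z (F i) ≠ 0) →
        ∀ B : Finset ℂ, B.Nonempty →
          c * ((A.card : ℝ) ^ ((k : ℝ) - ε) * (B.card : ℝ) ^ (1 - ε)) ≤
            ((polyRec F A B).card : ℝ) := by
  set ε₁ : ℝ := min ε 1 with hε₁
  have hε₁0 : 0 < ε₁ := lt_min hε one_pos
  have hε₁1 : ε₁ ≤ 1 := min_le_right _ _
  have hε₁ε : ε₁ ≤ ε := min_le_left _ _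
  set δ : ℝ := ε₁ / ((k : ℝ) + 1) ^ 2 with hδ
  have hk0 : (0 : ℝ) ≤ k := Nat.cast_nonneg k
  have hk1 : (1 : ℝ) ≤ ((k : ℝ) + 1) ^ 2 := by nlinarith
  have hδ0 : 0 < δ := by positivity
  have hδε : δ * ((k : ℝ) + 1) ^ 2 = ε₁ := by
    rw [hδ]
    field_simp
  have hδ1 : δ ≤ 1 := by
    have : δ * 1 ≤ δ * ((k : ℝ) + 1) ^ 2 := mul_le_mul_of_nonneg_left hk1 hδ0.le
    linarith
  obtain ⟨m, c₀, hc₀, hm⟩ := hT δ d hδ0
  set c₁ : ℝ := min c₀ 1 with hc₁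
  have hc₁0 : 0 < c₁ := lt_min hc₀ one_pos
  have hc₁1 : c₁ ≤ 1 := min_le_right _ _
  have hc₁c₀ : c₁ ≤ c₀ := min_le_left _ _
  have hck0 : 0 < c₁ ^ k := by positivity
  have hcc : min c₁ (c₁ ^ k) ≤ c₀ := (min_le_left _ _).trans hc₁c₀
  have hcpos : 0 < min c₁ (c₁ ^ k) := lt_min hc₁0 hck0
  refine ⟨m, min c₁ (c₁ ^ k), hcpos, ?_⟩
  intro A hA
  obtain ⟨Z, hZ, hF⟩ := hm A hA
  refine ⟨Z, hZ, ?_⟩
  intro F hFa hFz B hB
  have hAc : 1 ≤ A.card := hA.card_pos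
  have h1 := iterA hA hc₁0 hc₁1 hδ0.le
    (fun G => Adm d ((A.card : ℝ) ^ (c₀ * Real.log (Real.log A.card))) G ∧
      ∀ z ∈ Z, aeval z G ≠ 0)
    (fun G hG B' hB' => by
      refine le_trans ?_ (hF G hG.1.1 hG.1.2.1 hG.1.2.2 hG.2 B' hB')
      exact mul_le_mul_of_nonneg_right hc₁c₀ (by positivity)) hδ1 k F
    (fun i => ⟨adm_mono hAc hcpos hcc (hFa i), hFz i⟩) B hB
  refine le_trans ?_ h1
  have hN1 : (1 : ℝ) ≤ A.card := by exact_mod_cast hAc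
  have hB1 : (1 : ℝ) ≤ B.card := by exact_mod_cast hB.card_pos
  apply mul_le_mul (min_le_right _ _) _ (by positivity) hck0.le
  apply mul_le_mul _ _ (by positivity) (by positivity)
  · apply Real.rpow_le_rpow_of_exponent_le hN1
    have : δ * (k : ℝ) ^ 2 ≤ δ * ((k : ℝ) + 1) ^ 2 :=
      mul_le_mul_of_nonneg_left (by nlinarith) hδ0.le
    linarith
  · apply Real.rpow_le_rpow_of_exponent_le hB1
    have : δ * (k : ℝ) ≤ δ * ((k : ℝ) + 1) ^ 2 :=
      mul_le_mul_of_nonneg_left (by nlinarith) hδ0.le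
    linarith

/-- products and sums with one exceptional set -/
def Both (k d m : ℕ) (c ε : ℝ) : Prop :=
  ∀ A : Finset ℤ, A.Nonempty → ∃ Z : Finset ℂ, Z.card ≤ m ∧
    ∀ F : Fin k → ℤ[X],
      (∀ i, Adm d ((A.card : ℝ) ^ (c * Real.log (Real.log A.card))) (F i)) →
      (∀ i, ∀ z ∈ Z, aeval z (F i) ≠ 0) →
      ∀ B : Finset ℂ, B.Nonempty →
        ((0 : ℂ) ∉ B → c * ((A.card : ℝ) ^ ((k : ℝ) - ε) * (B.card : ℝ) ^ (1 - ε)) ≤
          (((polyProd F A B).erase 0).card : ℝ)) ∧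
        c * ((A.card : ℝ) ^ ((k : ℝ) - ε) * (B.card : ℝ) ^ (1 - ε)) ≤
          ((polyRec F A B).card : ℝ)

theorem both (hP : TRZ) (hS : RTZ) (k d : ℕ) (ε : ℝ) (hε : 0 < ε) :
    ∃ (m : ℕ) (c₀ : ℝ), 0 < c₀ ∧ ∀ c : ℝ, 0 < c → c ≤ c₀ → Both k d m c ε := by
  classical
  obtain ⟨m₁, c₁, hc₁, h₁⟩ := exceptional_zeros hP k d ε hε
  obtain ⟨m₂, c₂, hc₂, h₂⟩ := exceptional_poles hS k d ε hε
  refine ⟨m₁ + m₂, min c₁ c₂, lt_min hc₁ hc₂, ?_⟩
  intro c hc hcc A hA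
  have hcc₁ : c ≤ c₁ := hcc.trans (min_le_left _ _)
  have hcc₂ : c ≤ c₂ := hcc.trans (min_le_right _ _)
  obtain ⟨Z₁, hZ₁, hF₁⟩ := h₁ A hA
  obtain ⟨Z₂, hZ₂, hF₂⟩ := h₂ A hA
  refine ⟨Z₁ ∪ Z₂, (card_union_le _ _).trans (by omega), ?_⟩
  intro F hF hFz B hB
  have hAc : 1 ≤ A.card := hA.card_pos
  constructor
  · intro h0
    refine le_trans ?_ (hF₁ F (fun i => adm_mono hAc hc hcc₁ (hF i))
      (fun i z hz => hFz i z (mem_union_left _ hz)) B hB h0)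
    exact mul_le_mul_of_nonneg_right hcc₁ (by positivity)
  · refine le_trans ?_ (hF₂ F (fun i => adm_mono hAc hc hcc₂ (hF i))
      (fun i z hz => hFz i z (mem_union_right _ hz)) B hB)
    exact mul_le_mul_of_nonneg_right hcc₂ (by positivity)

/-- the products of `k` elements -/
noncomputable def prodC (k : ℕ) (A : Finset ℂ) : Finset ℂ := by
  classical
  exact (Fintype.piFinset (fun _ : Fin k => A)).image (fun f : Fin k → ℂ => ∏ i, f i)

/-- the sums of `k` elements -/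
noncomputable def sumC (k : ℕ) (A : Finset ℂ) : Finset ℂ := by
  classical
  exact (Fintype.piFinset (fun _ : Fin k => A)).image (fun f : Fin k → ℂ => ∑ i, f i)

theorem mem_prodC {k : ℕ} {A : Finset ℂ} {y : ℂ} :
    y ∈ prodC k A ↔ ∃ f : Fin k → ℂ, (∀ i, f i ∈ A) ∧ ∏ i, f i = y := by
  classical
  unfold prodC
  simp [Fintype.mem_piFinset]

theorem mem_sumC {k : ℕ} {A : Finset ℂ} {y : ℂ} :
    y ∈ sumC k A ↔ ∃ f : Fin k → ℂ, (∀ i, f i ∈ A) ∧ ∑ i, f i = y := by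
  classical
  unfold sumC
  simp [Fintype.mem_piFinset]

theorem mul_maps {k : ℕ} {G : ℤ[X]} {B : Finset ℤ} {A : Finset ℂ} {t : ℂ} (ht : t ≠ 0)
    (h : ∀ b ∈ B, t * ((G.eval b : ℤ) : ℂ) ∈ A) :
    ((polyProd (fun _ : Fin k => G) B {1}).erase 0).card ≤ (prodC k A).card := by
  classical
  refine card_le_card_of_injOn (fun y : ℂ => t ^ k * y) ?_ ?_
  · intro y hy
    rw [mem_coe] at hy ⊢
    obtain ⟨a, ha, b, hb, rfl⟩ := (mem_polyProd _ _ _ _).1 (mem_of_mem_erase hy)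
    rw [mem_singleton] at hb
    rw [mem_prodC]
    refine ⟨fun j => t * ((G.eval (a j) : ℤ) : ℂ), fun j => h _ (ha j), ?_⟩
    rw [prod_mul_distrib, prod_const, card_univ, Fintype.card_fin, hb, mul_one]
  · intro x _ y _ hxy
    exact mul_left_cancel₀ (pow_ne_zero k ht) hxy

theorem div_maps {k : ℕ} {G : ℤ[X]} {B : Finset ℤ} {A : Finset ℂ} {t : ℂ} (ht : t ≠ 0)
    (h : ∀ b ∈ B, G.eval b ≠ 0 → t / ((G.eval b : ℤ) : ℂ) ∈ A) :
    ((polyProd (fun _ : Fin k => G) B {1}).erase 0).card ≤ (prodC k A).card := by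
  classical
  refine card_le_card_of_injOn (fun y : ℂ => t ^ k * y⁻¹) ?_ ?_
  · intro y hy
    rw [mem_coe] at hy ⊢
    have hy0 := ne_of_mem_erase hy
    obtain ⟨a, ha, b, hb, rfl⟩ := (mem_polyProd _ _ _ _).1 (mem_of_mem_erase hy)
    rw [mem_singleton] at hb
    rw [hb, mul_one] at hy0 ⊢
    rw [mem_prodC]
    refine ⟨fun j => t / ((G.eval (a j) : ℤ) : ℂ), fun j => h _ (ha j) ?_, ?_⟩
    · intro h0
      apply hy0
      apply prod_eq_zero (mem_univ j)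
      rw [h0]
      simp
    · rw [prod_div_distrib, prod_const, card_univ, Fintype.card_fin, div_eq_mul_inv]
  · intro x _ y _ hxy
    exact inv_injective (mul_left_cancel₀ (pow_ne_zero k ht) hxy)

theorem rec_maps {k : ℕ} {G : ℤ[X]} {B : Finset ℤ} {A : Finset ℂ} {t : ℂ} (ht : t ≠ 0)
    (h : ∀ b ∈ B, G.eval b ≠ 0 → t / ((G.eval b : ℤ) : ℂ) ∈ A) :
    (polyRec (fun _ : Fin k => G) B {0}).card ≤ (sumC k A).card := by
  classical
  refine card_le_card_of_injOn (fun y : ℂ => t * y) ?_ ?_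
  · intro y hy
    rw [mem_coe] at hy ⊢
    obtain ⟨a, ha, b, hb, rfl⟩ := (mem_polyRec _ _ _ _).1 hy
    rw [mem_singleton] at hb
    rw [mem_sumC]
    refine ⟨fun j => t / ((G.eval (a j) : ℤ) : ℂ), fun j => h _ (ha j).1 (ha j).2, ?_⟩
    show ∑ j, t / ((G.eval (a j) : ℤ) : ℂ) = t * (∑ j, (((G.eval (a j) : ℤ) : ℂ))⁻¹ + b)
    rw [hb, add_zero, mul_sum]
    apply sum_congr rfl
    intro j _
    rw [div_eq_mul_inv]
  · intro x _ y _ hxy
    exact mul_left_cancel₀ ht hxy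

theorem size {k : ℕ} {ε a b : ℝ} (hk : 1 ≤ k) (hε : 0 < ε) (ha : 1 ≤ a) (hb : 1 ≤ b)
    (hab : a ≤ b ^ (1 + ε / (2 * k))) (hkε : 0 ≤ (k : ℝ) - ε) :
    a ^ ((k : ℝ) - ε) ≤ b ^ ((k : ℝ) - ε / 2) := by
  have hk1 : (1 : ℝ) ≤ k := by exact_mod_cast hk
  calc a ^ ((k : ℝ) - ε)
      ≤ (b ^ (1 + ε / (2 * k))) ^ ((k : ℝ) - ε) :=
        Real.rpow_le_rpow (by linarith) hab hkε
    _ = b ^ ((1 + ε / (2 * k)) * ((k : ℝ) - ε)) := by
        rw [← Real.rpow_mul (by linarith)]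
    _ ≤ b ^ ((k : ℝ) - ε / 2) := by
        apply Real.rpow_le_rpow_of_exponent_le hb
        have h5 : ε / (2 * k) * ((k : ℝ) - ε) ≤ ε / 2 := by
          rw [div_mul_eq_mul_div, div_le_iff₀ (by linarith)]
          nlinarith
        linarith

/-- sets which contain the images of a set `B` of comparable size under `m + 1` maps -/
theorem maps {k d m : ℕ} {ε c : ℝ} (hk : 1 ≤ k) (hε : 0 < ε) (hc : 0 < c) (hc1 : c ≤ 1)
    (h : Both k d m c (ε / 2))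
    (B : Finset ℤ) (A : Finset ℂ) (hB : B.Nonempty) (hA : A.Nonempty) (F : Fin (m + 1) → ℤ[X])
    (t : Fin (m + 1) → ℂ) (ht : ∀ i, t i ≠ 0)
    (hF : ∀ i, Adm d ((B.card : ℝ) ^ (c * Real.log (Real.log B.card))) (F i))
    (hFF : ∀ i j, i ≠ j → ∀ z : ℂ, ¬ (aeval z (F i) = 0 ∧ aeval z (F j) = 0))
    (hAB : (A.card : ℝ) ≤ (B.card : ℝ) ^ (1 + ε / (2 * k))) :
    ((∀ i, ∀ b ∈ B, t i * (((F i).eval b : ℤ) : ℂ) ∈ A) →
      c * (A.card : ℝ) ^ ((k : ℝ) - ε) ≤ ((prodC k A).card : ℝ)) ∧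
    ((∀ i, ∀ b ∈ B, (F i).eval b ≠ 0 → t i / (((F i).eval b : ℤ) : ℂ) ∈ A) →
      c * (A.card : ℝ) ^ ((k : ℝ) - ε) ≤ ((prodC k A).card : ℝ) ∧
      c * (A.card : ℝ) ^ ((k : ℝ) - ε) ≤ ((sumC k A).card : ℝ)) := by
  classical
  have hA1 : (1 : ℝ) ≤ A.card := by exact_mod_cast hA.card_pos
  have hB1 : (1 : ℝ) ≤ B.card := by exact_mod_cast hB.card_pos
  rcases lt_or_ge ((k : ℝ) - ε) 0 with hkε | hkε
  · have h1 : (A.card : ℝ) ^ ((k : ℝ) - ε) ≤ 1 :=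
      Real.rpow_le_one_of_one_le_of_nonpos hA1 hkε.le
    have h0 : c * (A.card : ℝ) ^ ((k : ℝ) - ε) ≤ 1 := by
      calc c * (A.card : ℝ) ^ ((k : ℝ) - ε) ≤ 1 * 1 :=
            mul_le_mul hc1 h1 (by positivity) one_pos.le
        _ = 1 := one_mul _
    obtain ⟨a, ha⟩ := hA
    have h2 : (1 : ℝ) ≤ ((prodC k A).card : ℝ) := by
      have h3 : (prodC k A).Nonempty := ⟨_, mem_prodC.2 ⟨fun _ => a, fun _ => ha, rfl⟩⟩
      exact_mod_cast h3.card_pos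
    have h3 : (1 : ℝ) ≤ ((sumC k A).card : ℝ) := by
      have h4 : (sumC k A).Nonempty := ⟨_, mem_sumC.2 ⟨fun _ => a, fun _ => ha, rfl⟩⟩
      exact_mod_cast h4.card_pos
    exact ⟨fun _ => h0.trans h2, fun _ => ⟨h0.trans h2, h0.trans h3⟩⟩
  obtain ⟨Z, hZ, hZF⟩ := h B hB
  -- one of the polynomials has no zero in `Z`
  obtain ⟨i, hi⟩ : ∃ i, ∀ z ∈ Z, aeval z (F i) ≠ 0 := by
    by_contra hcon
    push Not at hcon
    choose z hz hz0 using hcon
    have hinj : Function.Injective z := by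
      intro i j hij
      by_contra hne
      exact hFF i j hne (z i) ⟨hz0 i, by rw [hij]; exact hz0 j⟩
    have h1 : (univ.image z).card = m + 1 := by
      rw [card_image_of_injective _ hinj, card_univ, Fintype.card_fin]
    have h2 : univ.image z ⊆ Z := by
      intro w hw
      obtain ⟨i, -, rfl⟩ := mem_image.1 hw
      exact hz i
    have h3 := card_le_card h2
    omega
  have hsz := mul_le_mul_of_nonneg_left (size hk hε hA1 hB1 hAB hkε) hc.le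
  have h1 := (hZF (fun _ => F i) (fun _ => hF i) (fun _ => hi) {1} (singleton_nonempty _)).1
    (by simp)
  have h2 := (hZF (fun _ => F i) (fun _ => hF i) (fun _ => hi) {0} (singleton_nonempty _)).2
  rw [card_singleton, Nat.cast_one, Real.one_rpow, mul_one] at h1 h2
  refine ⟨fun hm => ?_, fun hd => ⟨?_, ?_⟩⟩
  · refine hsz.trans (h1.trans ?_)
    exact_mod_cast mul_maps (ht i) (hm i)
  · refine hsz.trans (h1.trans ?_)
    exact_mod_cast div_maps (ht i) (hd i)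
  · refine hsz.trans (h2.trans ?_)
    exact_mod_cast rec_maps (ht i) (hd i)

/-- everything together -/
theorem finalB (hP : TRZ) (hS : RTZ) (k d : ℕ) (hk : 1 ≤ k) (ε : ℝ) (hε : 0 < ε) :
    ∃ (m : ℕ) (c : ℝ), 0 < c ∧ Both k d m c ε ∧
      ∀ (B : Finset ℤ) (A : Finset ℂ), B.Nonempty → A.Nonempty →
        (A.card : ℝ) ≤ (B.card : ℝ) ^ (1 + c) →
        ∀ (F : Fin (m + 1) → ℤ[X]) (t : Fin (m + 1) → ℂ), (∀ i, t i ≠ 0) →
        (∀ i, Adm d ((B.card : ℝ) ^ (c * Real.log (Real.log B.card))) (F i)) →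
        (∀ i j, i ≠ j → ∀ z : ℂ, ¬ (aeval z (F i) = 0 ∧ aeval z (F j) = 0)) →
        ((∀ i, ∀ b ∈ B, t i * (((F i).eval b : ℤ) : ℂ) ∈ A) →
          c * (A.card : ℝ) ^ ((k : ℝ) - ε) ≤ ((prodC k A).card : ℝ)) ∧
        ((∀ i, ∀ b ∈ B, (F i).eval b ≠ 0 → t i / (((F i).eval b : ℤ) : ℂ) ∈ A) →
          c * (A.card : ℝ) ^ ((k : ℝ) - ε) ≤ ((prodC k A).card : ℝ) ∧
          c * (A.card : ℝ) ^ ((k : ℝ) - ε) ≤ ((sumC k A).card : ℝ)) := by
  obtain ⟨m, c₀, hc₀, hm⟩ := both hP hS k d (ε / 2) (by positivity)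
  have hk1 : (1 : ℝ) ≤ k := by exact_mod_cast hk
  set c : ℝ := min (min c₀ 1) (ε / (2 * k)) with hc
  have hek : 0 < ε / (2 * k) := by positivity
  have hc0 : 0 < c := lt_min (lt_min hc₀ one_pos) hek
  have hcc₀ : c ≤ c₀ := (min_le_left _ _).trans (min_le_left _ _)
  have hc1 : c ≤ 1 := (min_le_left _ _).trans (min_le_right _ _)
  have hce : c ≤ ε / (2 * k) := min_le_right _ _
  have key := hm c hc0 hcc₀
  refine ⟨m, c, hc0, ?_, ?_⟩
  · intro A hA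
    obtain ⟨Z, hZ, h⟩ := key A hA
    refine ⟨Z, hZ, fun F hF hFz B hB => ?_⟩
    have hN1 : (1 : ℝ) ≤ A.card := by exact_mod_cast hA.card_pos
    have hB1 : (1 : ℝ) ≤ B.card := by exact_mod_cast hB.card_pos
    have h1 := h F hF hFz B hB
    have h2 : c * ((A.card : ℝ) ^ ((k : ℝ) - ε) * (B.card : ℝ) ^ (1 - ε)) ≤
        c * ((A.card : ℝ) ^ ((k : ℝ) - ε / 2) * (B.card : ℝ) ^ (1 - ε / 2)) := by
      apply mul_le_mul_of_nonneg_left _ hc0.le
      apply mul_le_mul _ _ (by positivity) (by positivity)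
      · exact Real.rpow_le_rpow_of_exponent_le hN1 (by linarith)
      · exact Real.rpow_le_rpow_of_exponent_le hB1 (by linarith)
    exact ⟨fun h0 => h2.trans (h1.1 h0), h2.trans h1.2⟩
  · intro B A hB hA hAB F t ht hF hFF
    refine maps hk hε hc0 hc1 key B A hB hA F t ht hF hFF (hAB.trans ?_)
    have hB1 : (1 : ℝ) ≤ B.card := by exact_mod_cast hB.card_pos
    exact Real.rpow_le_rpow_of_exponent_le hB1 (by linarith)

end Pool.Agent.Helper99.RT
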