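import Pool.Agent.Helper99.RT.CellZ
import Pool.Agent.Helper88.RT.Dec
import Pool.Agent.Helper34.TR.Count
import Pool.Agent.Helper26.TR.NZ

/-!
# Project RT (MP_120218_co): the structure theorem for sums of reciprocals (R4, R5)
-/

set_option autoImplicit false

open Finset

namespace Pool.Agent.Helper99.RT

open Pool.Agent.Helper26.TR Pool.Agent.Helper88.RT Pool.Agent.Helper34.TR

/-- **The structure theorem for sums of reciprocals**, from the decoding corollary and the
count. -/
theorem nrMix_of (hcor : CorR) (hcount : CountS) : NRMix := by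
  classical
  intro k ε hε θ hθ hθ1
  set ζ : ℝ := ε / (4 * (k + 1)) with hζ
  have hk1 : (0 : ℝ) < (k : ℝ) + 1 := by positivity
  have hζ0 : 0 < ζ := by positivity
  obtain ⟨κ₀, hκ₀, hκ₀1, hmain⟩ := hcor k ζ hζ0
  obtain ⟨δ, n₀, hδ, hcnt⟩ := hcount 1 1 ζ one_pos hζ0
  set ρ : ℝ := θ * κ₀ / 2 with hρ
  have hρ0 : 0 < ρ := by positivity
  have hρ1 : ρ ≤ 1 := by
    have : θ * κ₀ ≤ 1 * 1 := mul_le_mul hθ1 hκ₀1 hκ₀.le zero_le_one
    rw [hρ]; linarith
  have hρκ : ρ ≤ κ₀ := by
    have : θ * κ₀ ≤ 1 * κ₀ := mul_le_mul_of_nonneg_right hθ1 hκ₀.le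
    rw [hρ]; linarith
  set κ : Fin k → ℝ := fun l => ρ ^ ((l : ℕ) + 1) with hκ
  have hκpos : ∀ l, 0 < κ l := fun l => by simp only [hκ]; positivity
  have hκle : ∀ l, κ l ≤ 1 := fun l => by
    simp only [hκ]
    exact pow_le_one₀ hρ0.le hρ1
  have hκle' : ∀ l, κ l ≤ κ₀ := fun l => by
    simp only [hκ]
    calc ρ ^ ((l : ℕ) + 1) ≤ ρ ^ 1 :=
          pow_le_pow_of_le_one hρ0.le hρ1 (by omega)
      _ = ρ := pow_one _
      _ ≤ κ₀ := hρκ
  have hκstep : ∀ l l' : Fin k, l' < l → κ l ≤ κ₀ * (θ * κ l' / 2) := by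
    intro l l' hl
    simp only [hκ]
    have h1 : κ₀ * (θ * ρ ^ ((l' : ℕ) + 1) / 2) = ρ ^ ((l' : ℕ) + 1 + 1) := by
      rw [pow_succ ρ ((l' : ℕ) + 1), hρ]; ring
    rw [h1]
    apply pow_le_pow_of_le_one hρ0.le hρ1
    have : (l' : ℕ) < l := hl
    omega
  set κm : ℝ := θ * ρ ^ (k + 1) with hκm
  have hκm0 : 0 < κm := by positivity
  have hκml : ∀ l, κm ≤ θ * κ l := fun l => by
    simp only [hκ, hκm]
    apply mul_le_mul_of_nonneg_left _ hθ.le
    exact pow_le_pow_of_le_one hρ0.le hρ1 (by have := l.2; omega)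
  set B : ℝ := 8 / κm ^ 2 with hB
  have hB0 : 0 < B := by positivity
  set C' : ℝ := 8 / κm ^ 2 with hC'
  have hC'0 : 0 < C' := by positivity
  -- a threshold for `N`
  obtain ⟨n₁, hn₁⟩ : ∃ n₁ : ℕ, ∀ N : ℕ, n₁ ≤ N → B ≤ (N : ℝ) ^ ζ := by
    have ht : Filter.Tendsto (fun N : ℕ => (N : ℝ) ^ ζ) Filter.atTop Filter.atTop :=
      (tendsto_rpow_atTop hζ0).comp tendsto_natCast_atTop_atTop
    obtain ⟨n₁, hn₁⟩ := (Filter.tendsto_atTop.1 ht B).exists_forall_of_atTop
    exact ⟨n₁, hn₁⟩
  set n₂ : ℕ := max (max n₀ n₁) 16 with hn₂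
  set D : ℝ := ∑ l, Real.log (θ * κ l / 2) - k * (Real.log 2 + 1) with hD
  set c : ℝ := min (min δ 1) (min (1 / (n₂ : ℝ) ^ k) (Real.exp D)) with hc
  have hn₂0 : (0 : ℝ) < n₂ := by
    have : 0 < n₂ := by omega
    exact_mod_cast this
  have hc0 : 0 < c := lt_min (lt_min hδ one_pos) (lt_min (by positivity) (Real.exp_pos _))
  have hcδ : c ≤ δ := (min_le_left _ _).trans (min_le_left _ _)
  have hc1 : c ≤ 1 := (min_le_left _ _).trans (min_le_right _ _)
  have hcn : c ≤ 1 / (n₂ : ℝ) ^ k := (min_le_right _ _).trans (min_le_left _ _)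
  have hcD : c ≤ Real.exp D := (min_le_right _ _).trans (min_le_right _ _)
  clear_value c
  refine ⟨κ, C', c, fun l => ⟨hκpos l, hκle l⟩, hC'0, hc0, ?_⟩
  intro N A hAne hA0 hAN hrec
  by_contra hcon
  push Not at hcon
  have hrecne : (recSum A).Nonempty := by
    unfold recSum
    apply Nonempty.image
    rw [Fintype.piFinset_nonempty]
    exact hAne
  have hrec1 : (1 : ℝ) ≤ ((recSum A).card : ℝ) := by exact_mod_cast card_pos.2 hrecne
  have hprodpos : (0 : ℝ) < ∏ l, ((A l).card : ℝ) :=
    prod_pos fun l _ => by exact_mod_cast card_pos.2 (hAne l)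
  have hN1 : 1 ≤ N := by
    by_contra h
    have hN0 : N = 0 := by omega
    subst hN0
    rw [Nat.cast_zero, Real.zero_rpow (by linarith)] at hrec
    linarith [hrec1]
  have hNpos : (0 : ℝ) < N := by exact_mod_cast hN1
  have hNε : (N : ℝ) ^ (-ε) ≤ 1 := by
    apply Real.rpow_le_one_of_one_le_of_nonpos (by exact_mod_cast hN1) (by linarith)
  rcases lt_or_ge N n₂ with hlt | hge
  · -- small `N`
    have h1 : ∏ l, ((A l).card : ℝ) ≤ (n₂ : ℝ) ^ k := by
      calc ∏ l, ((A l).card : ℝ) ≤ ∏ _l : Fin k, (n₂ : ℝ) := by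
            apply prod_le_prod
            · intro l _; positivity
            · intro l _
              have := hAN l
              exact_mod_cast this.trans hlt.le
        _ = (n₂ : ℝ) ^ k := by rw [prod_const, card_univ, Fintype.card_fin]
    have h2 : c * (N : ℝ) ^ (-ε) * ∏ l, ((A l).card : ℝ) ≤ 1 := by
      calc c * (N : ℝ) ^ (-ε) * ∏ l, ((A l).card : ℝ)
          ≤ (1 / (n₂ : ℝ) ^ k) * 1 * (n₂ : ℝ) ^ k := by
            apply mul_le_mul _ h1 hprodpos.le (by positivity)
            exact mul_le_mul hcn hNε (by positivity) (by positivity)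
        _ = 1 := by field_simp
    linarith
  · have hNn₀ : n₀ ≤ N := by omega
    have hNn₁ : n₁ ≤ N := by omega
    have hN16 : 16 ≤ N := by omega
    set L : ℝ := Real.log N with hL
    have hL1 : 1 ≤ L := by
      rw [hL, Real.le_log_iff_exp_le hNpos]
      have h3 : Real.exp 1 < 2.7182818286 := Real.exp_one_lt_d9
      have h4 : (16 : ℝ) ≤ N := by exact_mod_cast hN16
      linarith
    have hL0 : 0 < L := by linarith
    have hLL : 0 ≤ L * Real.log L := mul_nonneg (by linarith) (Real.log_nonneg hL1)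
    have hNζ : B ≤ (N : ℝ) ^ ζ := hn₁ N hNn₁
    have hNζ1 : (1 : ℝ) ≤ (N : ℝ) ^ ζ := Real.one_le_rpow (by exact_mod_cast hN1) hζ0.le
    set M : ℕ := ⌈(N : ℝ) ^ ζ⌉₊ with hM
    have hMle : (N : ℝ) ^ ζ ≤ M := Nat.le_ceil _
    have hM1 : 1 ≤ M := by
      have : (1 : ℝ) ≤ M := hNζ1.trans hMle
      exact_mod_cast this
    have hlogM : Real.log M ≤ ζ * L + Real.log 2 := by
      have h5 : (M : ℝ) ≤ 2 * (N : ℝ) ^ ζ := by
        have := Nat.ceil_lt_add_one (show 0 ≤ (N : ℝ) ^ ζ by positivity)
        rw [← hM] at this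
        linarith
      have h6 := Real.log_le_log (by exact_mod_cast hM1) h5
      rw [Real.log_mul (by norm_num) (by positivity), Real.log_rpow hNpos] at h6
      linarith
    -- the dichotomy
    have hdich : ∀ l : Fin k, 0 < (l : ℕ) →
        (∃ (T : Finset ℕ) (e : ℕ → ℕ) (β : ℕ → ℤ), Pop (θ * κ l) (A l) T e β ∧
          C' * (W0b (κ l) A l + 1) < W1a T e β) ∨ W0b (κ l) A l < c * (L * Real.log L) := by
      intro l hl
      by_contra h
      push Not at h
      exact absurd (hcon l hl h.1) (not_lt.2 h.2)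
    -- choose the sets
    have hchoice : ∀ l : Fin k, ∃ Z : Finset ℤ, Z ⊆ A l ∧
        θ * κ l / 2 * ((A l).card : ℝ) ≤ (Z.card : ℝ) ∧
        (0 < (l : ℕ) → ∀ b ∈ Z,
          (Z.filter (fun b' => Cell (Dn (bd A) (lamS κ A l)) b b')).card ≤ M) := by
      intro l
      have hκpl := hκpos l
      have hθκ : θ * κ l / 2 ≤ 1 := by
        have : θ * κ l ≤ 1 * 1 := mul_le_mul hθ1 (hκle l) (hκpos l).le zero_le_one
        linarith
      have hκA : θ * κ l / 2 * ((A l).card : ℝ) ≤ ((A l).card : ℝ) := by
        calc θ * κ l / 2 * ((A l).card : ℝ) ≤ 1 * ((A l).card : ℝ) :=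
              mul_le_mul_of_nonneg_right hθκ (Nat.cast_nonneg _)
          _ = _ := one_mul _
      rcases Nat.eq_zero_or_pos (l : ℕ) with hl | hl
      · exact ⟨A l, Subset.rfl, hκA, fun h => absurd h (by omega)⟩
      · rcases hdich l hl with ⟨T, e, β, hpop, hWlt⟩ | hsmall
        · have hWb := W0b_nonneg (κ l) A l
          have hθκ0 : 0 < θ * κ l := mul_pos hθ hκpl
          have hWpos : 0 < W1a T e β := lt_of_le_of_lt (by positivity) hWlt
          have hlogs : ∀ x ∈ idxr T e β, 0 ≤ Real.log (x.1 : ℝ) :=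
            fun _ _ => Real.log_natCast_nonneg _
          have hWs : 0 < ∑ x ∈ idxr T e β, Real.log (x.1 : ℝ) := by
            rw [← W1a_eq]; exact hWpos
          have hcardZ : θ * κ l / 2 * ((A l).card : ℝ) ≤
              ((Zc (idxr T e β) (fun x => Real.log (x.1 : ℝ)) (Cdr β) (θ * κ l) (A l)).card : ℝ) :=
            Zc_card hθκ0 hlogs (fun x hx => cdr_card hpop hx) hWs
          refine ⟨Zc (idxr T e β) (fun x => Real.log (x.1 : ℝ)) (Cdr β) (θ * κ l) (A l),
            Zc_subset _ _, hcardZ, ?_⟩
          intro _ b hb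
          set G := (Zc (idxr T e β) (fun x => Real.log (x.1 : ℝ)) (Cdr β) (θ * κ l)
            (A l)).filter (fun b' => Cell (Dn (bd A) (lamS κ A l)) b b') with hG
          have hne0 : ∀ a ∈ Zc (idxr T e β) (fun x => Real.log (x.1 : ℝ)) (Cdr β) (θ * κ l)
              (A l), a ≠ 0 := by
            intro a ha h0
            exact hA0 l (h0 ▸ Zc_subset _ _ ha)
          have hβ : ∀ p ∈ T, β p ≠ 0 := by
            intro p hp h0
            apply hpop.2.1 p hp
            rw [h0]
            exact dvd_zero _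
          have hlog20 : 0 < Real.log 2 := Real.log_pos (by norm_num)
          have hcell := cellsC (I := idxr T e β) (wt := fun x => Real.log (x.1 : ℝ))
            (Cd := Cdr β) hθκ0 (A := A l) hlogs (w := W0b (κ l) A l + Real.log 2) (by
              rw [← W1a_eq]
              have h9 : κm ^ 2 ≤ (θ * κ l) ^ 2 := pow_le_pow_left₀ hκm0.le (hκml l) 2
              have h10 : κm ^ 2 * C' = 8 := by
                rw [hC']; field_simp
              have h11 : κm ^ 2 * C' ≤ (θ * κ l) ^ 2 * C' :=
                mul_le_mul_of_nonneg_right h9 hC'0.le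
              have hlog2 : Real.log 2 ≤ 1 := by
                have := Real.log_two_lt_d9
                linarith
              have h12 : (θ * κ l) ^ 2 * (C' * (W0b (κ l) A l + 1)) ≤
                  (θ * κ l) ^ 2 * W1a T e β :=
                mul_le_mul_of_nonneg_left hWlt.le (by positivity)
              have h13 : 8 * (W0b (κ l) A l + 1) ≤
                  (θ * κ l) ^ 2 * C' * (W0b (κ l) A l + 1) :=
                mul_le_mul_of_nonneg_right (by linarith) (by positivity)
              nlinarith) (by positivity) hWs (G := G) (filter_subset _ _) (by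
              intro a ha a' ha' hne
              rw [hG, mem_filter] at ha ha'
              have h14 := pair_r (e := e) hpop.1 hβ (hne0 a ha.1) (hne0 a' ha'.1) hne
                (cell_trans ha.2 ha'.2)
              rw [Wt_eq hA0] at h14
              exact h14)
          have h15 : (8 : ℝ) / (θ * κ l) ^ 2 ≤ B := by
            rw [hB]
            apply div_le_div_of_nonneg_left (by norm_num) (by positivity)
            exact pow_le_pow_left₀ hκm0.le (hκml l) 2
          have h16 : (G.card : ℝ) ≤ M := hcell.trans (h15.trans (hNζ.trans hMle))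
          exact_mod_cast h16
        · refine ⟨A l, Subset.rfl, hκA, ?_⟩
          intro _ b hb
          have hb0 : b ≠ 0 := fun h0 => hA0 l (h0 ▸ hb)
          have h17 : Wt (bd A) (lamS κ A l) < δ * (L * Real.log L) := by
            rw [Wt_eq hA0]
            exact lt_of_lt_of_le hsmall (mul_le_mul_of_nonneg_right hcδ hLL)
          have h18 := hcnt N (bd A) (lamS κ A l) hNn₀ (lamS_zero hA0 l) h17 (A l) b (hA0 l)
          have h19 : (((A l).filter (fun b' =>
              Cell (Dn (bd A) (lamS κ A l)) b b')).card : ℝ) ≤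
              ((A l).filter (fun b' =>
                Close (Ures 1 1 L (Wt (bd A) (lamS κ A l)) (lamS κ A l)) b b')).card := by
            apply Nat.cast_le.2
            apply card_le_card
            intro x hx
            rw [mem_filter] at hx ⊢
            refine ⟨hx.1, ?_⟩
            have hx0 : x ≠ 0 := fun h0 => hA0 l (h0 ▸ hx.1)
            exact cell_close (lamS_zero hA0 l) hL0 hb0 hx0 hx.2
          have h20 := h19.trans (h18.trans hMle)
          exact_mod_cast h20
    choose Y hYA hYcard hYcell using hchoice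
    have hYne : ∀ l, (Y l).Nonempty := by
      intro l
      rw [← card_pos]
      have h21 : (0 : ℝ) < (Y l).card := by
        have h22 : (0 : ℝ) < (A l).card := by exact_mod_cast card_pos.2 (hAne l)
        have := hκpos l
        exact lt_of_lt_of_le (by positivity) (hYcard l)
      exact_mod_cast h21
    have hYN : ∀ l, ((Y l).card : ℝ) ≤ Real.exp L := by
      intro l
      rw [hL, Real.exp_log hNpos]
      exact_mod_cast (card_le_card (hYA l)).trans (hAN l)
    have key := hmain Y L M (bd A) (lamS κ A) hL1 hM1 hYne (fun l h => hA0 l (hYA l h)) hYN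
      (fun l q hq => lamS_zero hA0 l q hq) (by
        intro l l' hl q hq
        have hlevle : lev (κ l) (A l') q ≤ lamS κ A l q := by
          unfold lamS
          exact single_le_sum (f := fun l' => lev (κ l) (A l') q) (fun _ _ => Nat.zero_le _)
            (mem_filter.2 ⟨mem_univ _, hl⟩)
        have h23 := cdiv_lt (hκpos l) (hAne l') (hA0 l') hq
          (l := lamS κ A l q + 1) (by omega)
        have h24 : (((Y l').filter (fun b => (q : ℤ) ^ (lamS κ A l q + 1) ∣ b)).card : ℝ) ≤
            (cdiv (A l') ((q : ℤ) ^ (lamS κ A l q + 1)) : ℝ) := by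
          unfold cdiv
          apply Nat.cast_le.2
          exact card_le_card (filter_subset_filter _ (hYA l'))
        refine h24.trans (h23.le.trans ?_)
        have h25 := hYcard l'
        have h26 := hκstep l l' hl
        calc κ l * ((A l').card : ℝ) ≤ κ₀ * (θ * κ l' / 2) * ((A l').card : ℝ) :=
              mul_le_mul_of_nonneg_right h26 (Nat.cast_nonneg _)
          _ = κ₀ * (θ * κ l' / 2 * ((A l').card : ℝ)) := by ring
          _ ≤ κ₀ * (Y l').card := mul_le_mul_of_nonneg_left h25 hκ₀.le)
      (fun l hl b hb => hYcell l hl b hb)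
    have hsub : recSum Y ⊆ recSum A := by
      unfold recSum
      apply image_subset_image
      intro f hf
      rw [Fintype.mem_piFinset] at hf ⊢
      exact fun l => hYA l (hf l)
    have hYprodne : (recSum Y).Nonempty := by
      unfold recSum
      apply Nonempty.image
      rw [Fintype.piFinset_nonempty]
      exact hYne
    have h27 : Real.log ((recSum Y).card) ≤ Real.log ((recSum A).card : ℝ) := by
      apply Real.log_le_log
      · exact_mod_cast card_pos.2 hYprodne
      · exact_mod_cast card_le_card hsub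
    have h28 : Real.log ((recSum A).card : ℝ) <
        Real.log c + -ε * L + ∑ l, Real.log ((A l).card : ℝ) := by
      have h29 := Real.log_lt_log (by linarith) hrec
      rw [Real.log_mul (by positivity) hprodpos.ne', Real.log_mul hc0.ne' (by positivity),
        Real.log_rpow hNpos, Real.log_prod (fun l _ => by
          have := card_pos.2 (hAne l)
          positivity)] at h29
      exact h29
    have h30 : ∑ l, Real.log ((A l).card : ℝ) + ∑ l, Real.log (θ * κ l / 2) ≤
        ∑ l, Real.log ((Y l).card : ℝ) := by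
      rw [← sum_add_distrib]
      apply sum_le_sum
      intro l _
      have hAp : (0 : ℝ) < (A l).card := by exact_mod_cast card_pos.2 (hAne l)
      have hκp := hκpos l
      rw [add_comm, ← Real.log_mul (by positivity) hAp.ne']
      exact Real.log_le_log (by positivity) (hYcard l)
    have h31 : Real.log c ≤ D := by
      rw [← Real.log_exp D]
      exact Real.log_le_log hc0 hcD
    have h32 : (k : ℝ) * (ζ * L + Real.log M) ≤ k * (2 * ζ * L + Real.log 2) := by
      apply mul_le_mul_of_nonneg_left _ (Nat.cast_nonneg _)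
      linarith
    have h33 : (k : ℝ) * (2 * ζ) ≤ ε := by
      rw [hζ]
      have : (k : ℝ) * (2 * (ε / (4 * (k + 1)))) = ε * (k / (2 * (k + 1))) := by
        field_simp
        ring
      rw [this]
      have h34 : (k : ℝ) / (2 * (k + 1)) ≤ 1 := by
        rw [div_le_one (by positivity)]
        have : (0 : ℝ) ≤ k := Nat.cast_nonneg _
        linarith
      calc ε * (k / (2 * (k + 1))) ≤ ε * 1 := mul_le_mul_of_nonneg_left h34 hε.le
        _ = ε := mul_one _
    have h35 : (k : ℝ) * (2 * ζ) * L ≤ ε * L := mul_le_mul_of_nonneg_right h33 (by linarith)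
    rw [hD] at h31
    have h36 : (k : ℝ) * (2 * ζ * L + Real.log 2) =
        (k : ℝ) * (2 * ζ) * L + k * Real.log 2 := by ring
    have h37 : (0 : ℝ) ≤ k := Nat.cast_nonneg _
    have h38 : (k : ℝ) * (Real.log 2 + 1) = k * Real.log 2 + k := by ring
    linarith

/-- **The structure theorem for sums of reciprocals.** -/
theorem nrMix : NRMix := nrMix_of corR countS

end Pool.Agent.Helper99.RT
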