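import Pool.Agent.Helper99.TR.ZerB
import Pool.Agent.Helper99.TR.Expand
import Pool.Agent.Helper88.RT.Defs

/-!
# Project RT (MP_120218_co): one-set inequality for reciprocals of polynomial values
-/

set_option autoImplicit false

open Finset Polynomial

namespace Pool.Agent.Helper99.RT

open Pool.Agent.Helper26.TR Pool.Agent.Helper88.NZ
open Pool.Agent.Helper99.TR (Gd)
open Pool.Agent.Helper88.RT (W1a NRMix recSum)

/-- **One-set inequality** for pairwise coprime primitive polynomials (after helper88's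
`one_set` for irreducible polynomials). -/
theorem one_set {A : Finset ℤ} {d : ℕ} (hd : 1 ≤ d) (hA : 2 * d ≤ A.card) {κ : ℝ} (hκ0 : 0 < κ)
    (hκ1 : κ ≤ 1) (J : Finset ℤ[X]) (F : ℤ[X]) {H : ℤ} (hH : 1 ≤ H)
    (hJ : ∀ G ∈ J, Gd d H G) (hF : Gd d H F) (hFn : F ∉ J)
    (hres0 : ∀ G ∈ insert F J, ∀ G' ∈ insert F J, G ≠ G' → res G G' ≠ 0)
    {V : ℝ} (hpop : ∀ (T : Finset ℕ) (e : ℕ → ℕ) (β : ℕ → ℤ),
      Pop (1 / (2 * (d : ℝ) ^ 3) * κ) (fz A F) T e β → W1a T e β ≤ V) :
    ∑ G ∈ J, W0 κ (fz A G) ≤ 2 * (d : ℝ) ^ 2 / κ * V + 2 * (d * J.card *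
      (((J.card : ℝ) + 1) ^ 2 * Real.log (((2 * d).factorial : ℝ) * (H : ℝ) ^ (2 * d)))) := by
  classical
  have hdr : (1 : ℝ) ≤ d := by exact_mod_cast hd
  have hdr0 : (0 : ℝ) < d := by linarith
  have hAne : A.Nonempty := card_pos.1 (by omega)
  set P : Finset ℤ[X] := insert F J with hP
  have hPgood : ∀ G ∈ P, Gd d H G := by
    intro G hG
    rcases mem_insert.1 hG with h | h
    · rw [h]; exact hF
    · exact hJ G h
  have hres : ∀ z ∈ P.offDiag, res z.1 z.2 ≠ 0 := by
    intro z hz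
    rw [mem_offDiag] at hz
    exact hres0 _ hz.1 _ hz.2.1 hz.2.2
  set Λ : ℝ := Real.log (((2 * d).factorial : ℝ) * (H : ℝ) ^ (2 * d)) with hΛ
  have hHr : (1 : ℝ) ≤ H := by exact_mod_cast hH
  have hfac : (1 : ℝ) ≤ ((2 * d).factorial : ℝ) := by
    exact_mod_cast Nat.one_le_iff_ne_zero.2 (Nat.factorial_ne_zero _)
  have hΛ0 : 0 ≤ Λ := by
    apply Real.log_nonneg
    calc (1 : ℝ) = 1 * 1 := by norm_num
      _ ≤ _ := mul_le_mul hfac (one_le_pow₀ hHr) (by norm_num) (by positivity)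
  have hlogres : ∀ z ∈ P.offDiag, Real.log (res z.1 z.2).natAbs ≤ Λ := by
    intro z hz
    have hne := hres z hz
    rw [mem_offDiag] at hz
    have h1 := res_le (hPgood _ hz.1).2.2.1 (hPgood _ hz.2.1).2.2.1 hH (hPgood _ hz.1).2.2.2
      (hPgood _ hz.2.1).2.2.2
    have h2 : ((res z.1 z.2).natAbs : ℝ) ≤ ((2 * d).factorial : ℝ) * (H : ℝ) ^ (2 * d) := by
      rw [Nat.cast_natAbs]
      exact_mod_cast h1
    apply Real.log_le_log _ h2
    exact_mod_cast Int.natAbs_pos.2 hne
  set FF : Finset ℕ := J.biUnion (fun G => prs (fz A G)) with hFF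
  have hFFp : ∀ p ∈ FF, p.Prime := by
    intro p hp
    rw [hFF, mem_biUnion] at hp
    obtain ⟨x, _, hx⟩ := hp
    unfold prs at hx
    rw [mem_biUnion] at hx
    obtain ⟨a, _, ha⟩ := hx
    exact Nat.prime_of_mem_primeFactors ha
  have hWF : ∀ G ∈ J, W0 κ (fz A G) = ∑ q ∈ FF, (lev κ (fz A G) q : ℝ) * Real.log q := by
    intro G hG
    exact W0_eq _ (fz_zero A G) FF hFFp (subset_biUnion_of_mem (fun G => prs (fz A G)) hG)
  have hq0 : ∀ q : ℕ, 0 ≤ Real.log q := fun q => Real.log_natCast_nonneg q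
  -- the levels
  set tt : ℤ[X] → ℕ → ℕ := fun G q => (lev κ (fz A G) q + (d - 1)) / d with htt
  have htt1 : ∀ G q, lev κ (fz A G) q ≤ d * tt G q := by
    intro G q
    have h1 := Nat.div_add_mod (lev κ (fz A G) q + (d - 1)) d
    have h2 := Nat.mod_lt (lev κ (fz A G) q + (d - 1)) (by omega : d > 0)
    have h3 : d * tt G q = d * ((lev κ (fz A G) q + (d - 1)) / d) := rfl
    omega
  have htt2 : ∀ G q, tt G q ≤ lev κ (fz A G) q := by
    intro G q
    have h3 : tt G q = (lev κ (fz A G) q + (d - 1)) / d := rfl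
    rw [h3]
    rcases Nat.eq_zero_or_pos (lev κ (fz A G) q) with h0 | h0
    · rw [h0, Nat.zero_add]
      have : (d - 1) / d = 0 := Nat.div_eq_of_lt (by omega)
      omega
    · apply Nat.div_le_of_le_mul
      have h4 : lev κ (fz A G) q * 1 ≤ lev κ (fz A G) q * d := Nat.mul_le_mul_left _ hd
      obtain ⟨x, hx⟩ : ∃ x, lev κ (fz A G) q = x + 1 := ⟨_, (Nat.succ_pred_eq_of_pos h0).symm⟩
      rw [hx]
      have h5 : d * (x + 1) = d * x + d := by ring
      have h6 : x ≤ d * x := Nat.le_mul_of_pos_left x (by omega)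
      omega
  have htt3 : ∀ G q, 1 ≤ tt G q → d * (tt G q - 1) < lev κ (fz A G) q := by
    intro G q h
    have h1 : d * tt G q ≤ lev κ (fz A G) q + (d - 1) := Nat.mul_div_le _ _
    have h2 : d * (tt G q - 1) = d * tt G q - d := by rw [Nat.mul_sub, Nat.mul_one]
    have h3 : d ≤ d * tt G q := Nat.le_mul_of_pos_right d h
    omega
  set sq : ℕ → ℕ := fun q => 2 * rsep P q with hsq
  have hsq1 : ∀ q, rsep P q ≤ sq q := fun q => by rw [hsq]; simp only; omega
  set mu : ℕ → ℕ := fun q => J.sup (fun G => tt G q - sq q) with hmu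
  have hnot : ∀ q : ℕ, q.Prime → ∀ G ∈ P, ∀ G' ∈ P, G ≠ G' → ∀ l, rsep P q < l →
      ¬ (q : ℤ) ^ l ∣ res G G' := by
    intro q hq G hG G' hG' hne l hl hdvd
    have := Fact.mk hq
    have h1 := le_rsep hG hG' hne q
    rcases (padicValInt_dvd_iff (p := q) _ _).1 hdvd with h | h
    · exact hres (G, G') (mem_offDiag.2 ⟨hG, hG', hne⟩) h
    · omega
  -- popular leading digits of the values of `F`
  have hch : ∀ q : ℕ, ∃ p : ℕ × ℤ, q ∈ FF → mu q ≠ 0 →
      ¬ (q : ℤ) ^ p.1 ∣ p.2 ∧ mu q ≤ p.1 - 2 * padicValInt q p.2 ∧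
      1 / (2 * (d : ℝ) ^ 3) * κ * ((fz A F).card : ℝ) ≤
        (((fz A F).filter (fun b => (q : ℤ) ^ p.1 ∣ b - p.2)).card : ℝ) := by
    intro q
    by_cases hq : q ∈ FF
    swap
    · exact ⟨(0, 0), fun h => absurd h hq⟩
    by_cases hm : mu q = 0
    · exact ⟨(0, 0), fun _ h => absurd hm h⟩
    have hqp := hFFp q hq
    have hJne : J.Nonempty := by
      rw [nonempty_iff_ne_empty]
      intro h0
      apply hm
      rw [hmu]
      simp only
      rw [h0, sup_empty]
      rfl
    obtain ⟨G, hG, hGe⟩ := exists_mem_eq_sup J hJne (fun G => tt G q - sq q)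
    have hmuq : mu q = tt G q - sq q := hGe
    have hsqq : sq q = 2 * rsep P q := rfl
    have hGP : G ∈ P := mem_insert_of_mem hG
    have hFP : F ∈ P := mem_insert_self _ _
    have hFG : F ≠ G := fun h => hFn (h ▸ hG)
    have hgood := hJ G hG
    set t := tt G q with ht
    set l := lev κ (fz A G) q with hl
    have htl : t ≤ l := htt2 G q
    have hst : rsep P q < t := by omega
    have hpts := pop_points hgood.2.1 hgood.2.2.1 hA hκ0.le hκ1 (le_refl l)
    set T : Finset ℤ := A.filter (fun a => (q : ℤ) ^ l ∣ G.eval a) with hT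
    have hTne : T.Nonempty := by
      rw [nonempty_iff_ne_empty]
      intro h0
      rw [h0, card_empty, Nat.cast_zero, mul_zero] at hpts
      have : (0 : ℝ) < A.card := by exact_mod_cast card_pos.2 hAne
      have : 0 < κ * A.card := by positivity
      linarith
    obtain ⟨r, hrT, hrc⟩ := exists_class hgood.1
      hgood.2.2.1 hqp (l := l) (t := t) (htt3 G q (by omega)) hTne
      (fun a ha => (mem_filter.1 ha).2)
    have hrG : (q : ℤ) ^ l ∣ G.eval r := (mem_filter.1 hrT).2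
    have hval : ∀ n, rsep P q < n → n ≤ l → ¬ (q : ℤ) ^ n ∣ F.eval r := by
      intro n hn hnl h
      exact hnot q hqp F hFP G hGP hFG n hn
        (dvd_res hF.2.1 h ((pow_dvd_pow _ hnl).trans hrG))
    refine ⟨(t, F.eval r), fun _ _ => ⟨hval t hst htl, ?_, ?_⟩⟩
    · have h1 : padicValInt q (F.eval r) ≤ rsep P q := by
        by_contra hlt
        push Not at hlt
        apply hval (rsep P q + 1) (by omega) (by omega)
        have := Fact.mk hqp
        rw [padicValInt_dvd_iff]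
        right
        exact hlt
      simp only
      omega
    · simp only
      have h1 := pop_values (A := A) hF.2.1 hF.2.2.1 (hval t hst htl)
        (T.filter (fun a => (q : ℤ) ^ t ∣ a - r))
        ((filter_subset _ _).trans (filter_subset _ _)) (fun a ha => (mem_filter.1 ha).2)
      have h2 : (T.card : ℝ) ≤ d * ((T.filter (fun a => (q : ℤ) ^ t ∣ a - r)).card : ℝ) := by
        exact_mod_cast hrc
      have h3 : ((T.filter (fun a => (q : ℤ) ^ t ∣ a - r)).card : ℝ) ≤
          d * (((fz A F).filter (fun b => (q : ℤ) ^ t ∣ b - F.eval r)).card : ℝ) := by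
        exact_mod_cast h1
      have h4 : ((fz A F).card : ℝ) ≤ A.card := by exact_mod_cast card_fz_le A F
      set x : ℝ := (((fz A F).filter (fun b => (q : ℤ) ^ t ∣ b - F.eval r)).card : ℝ) with hx
      have h5 : κ * (fz A F).card ≤ 2 * d * (d * (d * x)) := by
        calc κ * (fz A F).card ≤ κ * A.card := mul_le_mul_of_nonneg_left h4 hκ0.le
          _ ≤ 2 * d * T.card := hpts
          _ ≤ 2 * d * (d * (d * x)) := by
              apply mul_le_mul_of_nonneg_left _ (by positivity)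
              exact h2.trans (mul_le_mul_of_nonneg_left h3 hdr0.le)
      rw [mul_assoc, div_mul_eq_mul_div, one_mul, div_le_iff₀ (by positivity)]
      refine h5.trans (le_of_eq ?_)
      ring
  choose b hb using hch
  have hPop : Pop (1 / (2 * (d : ℝ) ^ 3) * κ) (fz A F) (FF.filter (fun q => mu q ≠ 0))
      (fun q => (b q).1) (fun q => (b q).2) := by
    refine ⟨fun p hp => hFFp p (mem_filter.1 hp).1, fun p hp => ?_, fun p hp => ?_⟩
    · obtain ⟨h1, h2⟩ := mem_filter.1 hp
      exact (hb p h1 h2).1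
    · obtain ⟨h1, h2⟩ := mem_filter.1 hp
      exact (hb p h1 h2).2.2
  have hV := hpop _ _ _ hPop
  have hmuV : ∑ q ∈ FF, (mu q : ℝ) * Real.log q ≤ V := by
    refine le_trans ?_ hV
    unfold W1a
    rw [sum_filter]
    apply sum_le_sum
    intro q hq
    by_cases hm : mu q = 0
    · simp [hm]
    · rw [if_pos hm]
      apply mul_le_mul_of_nonneg_right _ (hq0 q)
      exact_mod_cast (hb q hq hm).2.1
  -- at most `2 d / κ` polynomials are popular at each level
  have hone : ∀ q ∈ FF, κ * ∑ G ∈ J, ((tt G q - sq q : ℕ) : ℝ) ≤ 2 * d * mu q := by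
    intro q hq
    have h1 : ∀ G ∈ J, ((tt G q - sq q : ℕ) : ℝ) =
        ∑ l ∈ Ioc (sq q) (sq q + mu q), if l ≤ tt G q then (1 : ℝ) else 0 := by
      intro G hG
      rw [← sum_filter, sum_const, nsmul_one]
      congr 1
      have h2 : tt G q - sq q ≤ mu q :=
        le_sup (f := fun G => tt G q - sq q) hG
      have h3 : (Ioc (sq q) (sq q + mu q)).filter (fun l => l ≤ tt G q) =
          Ioc (sq q) (tt G q) := by
        ext l
        simp only [mem_filter, mem_Ioc]
        omega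
      rw [h3, Nat.card_Ioc]
    rw [sum_congr rfl h1, sum_comm, mul_sum]
    have h4 : ∀ l ∈ Ioc (sq q) (sq q + mu q),
        κ * ∑ G ∈ J, (if l ≤ tt G q then (1 : ℝ) else 0) ≤ 2 * d := by
      intro l hl
      rw [← sum_filter, sum_const, nsmul_one]
      apply card_pop_poly (q := q) hAne (l := l)
      · intro G hG
        exact (hJ G (mem_filter.1 hG).1).2.1
      · intro G hG G' hG' hne
        exact hnot q (hFFp q hq) G (mem_insert_of_mem (mem_filter.1 hG).1) G'
          (mem_insert_of_mem (mem_filter.1 hG').1) hne l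
          (lt_of_le_of_lt (hsq1 q) (mem_Ioc.1 hl).1)
      · intro G hG
        have hGJ := (mem_filter.1 hG).1
        exact pop_points (hJ G hGJ).2.1 (hJ G hGJ).2.2.1 hA hκ0.le hκ1
          ((mem_filter.1 hG).2.trans (htt2 G q))
    refine (sum_le_sum h4).trans ?_
    rw [sum_const, Nat.card_Ioc, nsmul_eq_mul]
    apply le_of_eq
    rw [mul_comm]
    congr 2
    omega
  have hall : κ * ∑ G ∈ J, ∑ q ∈ FF, ((tt G q - sq q : ℕ) : ℝ) * Real.log q ≤
      2 * d * V := by
    rw [sum_comm, mul_sum]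
    refine le_trans (sum_le_sum (g := fun q => 2 * (d : ℝ) * ((mu q : ℝ) * Real.log q))
      fun q hq => ?_) ?_
    · rw [← sum_mul, ← mul_assoc, ← mul_assoc]
      exact mul_le_mul_of_nonneg_right (hone q hq) (hq0 q)
    · rw [← mul_sum]
      exact mul_le_mul_of_nonneg_left hmuV (by positivity)
  have hsep : ∑ q ∈ FF, (sq q : ℝ) * Real.log q ≤ 2 * (((J.card : ℝ) + 1) ^ 2 * Λ) := by
    have h1 : ∑ q ∈ FF, (sq q : ℝ) * Real.log q =
        2 * ∑ q ∈ FF, (rsep P q : ℝ) * Real.log q := by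
      rw [mul_sum]
      apply sum_congr rfl
      intro q _
      rw [hsq]
      push_cast
      ring
    rw [h1]
    apply mul_le_mul_of_nonneg_left _ (by norm_num)
    refine (sum_rsep_le P FF hFFp hres hlogres hΛ0).trans ?_
    apply mul_le_mul_of_nonneg_right _ hΛ0
    apply pow_le_pow_left₀ (Nat.cast_nonneg _)
    exact_mod_cast card_insert_le F J
  have hW : ∀ G ∈ J, W0 κ (fz A G) ≤
      d * ∑ q ∈ FF, ((tt G q - sq q : ℕ) : ℝ) * Real.log q +
        d * (2 * (((J.card : ℝ) + 1) ^ 2 * Λ)) := by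
    intro G hG
    rw [hWF G hG]
    have h1 : ∑ q ∈ FF, (lev κ (fz A G) q : ℝ) * Real.log q ≤
        ∑ q ∈ FF, (d * (((tt G q - sq q : ℕ) : ℝ) * Real.log q) +
          d * ((sq q : ℝ) * Real.log q)) := by
      apply sum_le_sum
      intro q _
      have h2 : lev κ (fz A G) q ≤ d * ((tt G q - sq q) + sq q) :=
        (htt1 G q).trans (Nat.mul_le_mul_left _ (by omega))
      have h3 : (lev κ (fz A G) q : ℝ) ≤
          d * (((tt G q - sq q : ℕ) : ℝ) + sq q) := by exact_mod_cast h2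
      have h4 := mul_le_mul_of_nonneg_right h3 (hq0 q)
      refine h4.trans (le_of_eq ?_)
      ring
    refine h1.trans ?_
    rw [sum_add_distrib, ← mul_sum, ← mul_sum]
    have h5 := mul_le_mul_of_nonneg_left hsep hdr0.le
    linarith
  refine (sum_le_sum hW).trans ?_
  rw [sum_add_distrib, ← mul_sum, sum_const, nsmul_eq_mul]
  have h6 : ∑ G ∈ J, ∑ q ∈ FF, ((tt G q - sq q : ℕ) : ℝ) * Real.log q ≤ 2 * d * V / κ := by
    rw [le_div_iff₀ hκ0, mul_comm]
    exact hall
  have h7 := mul_le_mul_of_nonneg_left h6 hdr0.le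
  have h8 : (d : ℝ) * (2 * d * V / κ) = 2 * (d : ℝ) ^ 2 / κ * V := by ring
  have h9 : (J.card : ℝ) * (d * (2 * (((J.card : ℝ) + 1) ^ 2 * Λ))) =
      2 * (d * J.card * (((J.card : ℝ) + 1) ^ 2 * Λ)) := by ring
  linarith

end Pool.Agent.Helper99.RT
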