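import Pool.Agent.Helper99.RT.Fold

set_option autoImplicit false

namespace Pool.Agent.Helper99.RT.Result

open Finset Polynomial

/-- **All but boundedly many translates (and polynomial images) of a set of integers are
multiplicatively generic, and their reciprocals are additively generic.**

For all `k ≥ 1`, `d` and `ε > 0` there are `m` and `c > 0` such that
(1) for every finite non-empty set `A` of integers there is a set `Z` of at most `m` complex numbers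
such that for all non-constant integer polynomials `F₁, …, F_k` of degree at most `d` which have
coefficients of absolute value at most `|A| ^ (c log log |A|)` and no zero in `Z`, and for all finite
non-empty sets `B` of complex numbers,
`|{F₁(a₁) ⋯ F_k(a_k) b : a_i ∈ A, b ∈ B}| ≥ c |A|^(k-ε) |B|^(1-ε)` if `0 ∉ B`, and
`|{1/F₁(a₁) + ⋯ + 1/F_k(a_k) + b : a_i ∈ A, F_i(a_i) ≠ 0, b ∈ B}| ≥ c |A|^(k-ε) |B|^(1-ε)`;
(2) let `B` be a finite non-empty set of integers and `A` a finite non-empty set of complex numbers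
with `|A| ≤ |B|^(1+c)`, and let `F₀, …, F_m` be non-constant integer polynomials of degree at most
`d`, with coefficients of absolute value at most `|B| ^ (c log log |B|)`, no two of which have a
common complex zero, and `t₀, …, t_m` non-zero complex numbers.  If `A` contains the numbers
`t_i F_i(b)`, `b ∈ B`, for every `i`, then `|A^k| ≥ c |A|^(k-ε)`.  If `A` contains the numbers
`t_i / F_i(b)`, `b ∈ B`, `F_i(b) ≠ 0`, for every `i`, then `|A^k| ≥ c |A|^(k-ε)` and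
`|kA| ≥ c |A|^(k-ε)`. -/
theorem result :
    ∀ k d : ℕ, 1 ≤ k → ∀ ε : ℝ, 0 < ε → ∃ (m : ℕ) (c : ℝ), 0 < c ∧
      (∀ A : Finset ℤ, A.Nonempty → ∃ Z : Finset ℂ, Z.card ≤ m ∧
        ∀ F : Fin k → ℤ[X],
          (∀ i, 1 ≤ (F i).natDegree ∧ (F i).natDegree ≤ d ∧
            (∀ j, |((F i).coeff j : ℝ)| ≤ (A.card : ℝ) ^ (c * Real.log (Real.log A.card))) ∧
            ∀ z ∈ Z, aeval z (F i) ≠ 0) →
          ∀ B : Finset ℂ, B.Nonempty →
            ((0 : ℂ) ∉ B →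
              c * (A.card : ℝ) ^ ((k : ℝ) - ε) * (B.card : ℝ) ^ (1 - ε) ≤
                ({y : ℂ | ∃ a : Fin k → ℤ, (∀ i, a i ∈ A) ∧ ∃ b ∈ B,
                  y = (∏ i, (((F i).eval (a i) : ℤ) : ℂ)) * b}.ncard : ℝ)) ∧
            c * (A.card : ℝ) ^ ((k : ℝ) - ε) * (B.card : ℝ) ^ (1 - ε) ≤
              ({y : ℂ | ∃ a : Fin k → ℤ, (∀ i, a i ∈ A ∧ (F i).eval (a i) ≠ 0) ∧ ∃ b ∈ B,
                y = (∑ i, 1 / (((F i).eval (a i) : ℤ) : ℂ)) + b}.ncard : ℝ)) ∧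
      ∀ (B : Finset ℤ) (A : Finset ℂ), B.Nonempty → A.Nonempty →
        (A.card : ℝ) ≤ (B.card : ℝ) ^ (1 + c) →
        ∀ (F : Fin (m + 1) → ℤ[X]) (t : Fin (m + 1) → ℂ),
          (∀ i, 1 ≤ (F i).natDegree ∧ (F i).natDegree ≤ d ∧
            (∀ j, |((F i).coeff j : ℝ)| ≤ (B.card : ℝ) ^ (c * Real.log (Real.log B.card))) ∧
            t i ≠ 0) →
          (∀ i j, i ≠ j → ∀ z : ℂ, ¬ (aeval z (F i) = 0 ∧ aeval z (F j) = 0)) →
          ((∀ i, ∀ b ∈ B, t i * (((F i).eval b : ℤ) : ℂ) ∈ A) →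
            c * (A.card : ℝ) ^ ((k : ℝ) - ε) ≤
              ({y : ℂ | ∃ f : Fin k → ℂ, (∀ i, f i ∈ A) ∧ y = ∏ i, f i}.ncard : ℝ)) ∧
          ((∀ i, ∀ b ∈ B, (F i).eval b ≠ 0 → t i / (((F i).eval b : ℤ) : ℂ) ∈ A) →
            c * (A.card : ℝ) ^ ((k : ℝ) - ε) ≤
              ({y : ℂ | ∃ f : Fin k → ℂ, (∀ i, f i ∈ A) ∧ y = ∏ i, f i}.ncard : ℝ) ∧
            c * (A.card : ℝ) ^ ((k : ℝ) - ε) ≤
              ({y : ℂ | ∃ f : Fin k → ℂ, (∀ i, f i ∈ A) ∧ y = ∑ i, f i}.ncard : ℝ)) := by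
  intro k d hk ε hε
  obtain ⟨m, c, hc, h1, h2⟩ :=
    Pool.Agent.Helper99.RT.finalB (Pool.Agent.Helper99.TR.trz Pool.Agent.Helper34.TR.nzMixT)
      (Pool.Agent.Helper99.RT.rtz Pool.Agent.Helper99.RT.nrMix) k d hk ε hε
  have hprod : ∀ A : Finset ℂ, {y : ℂ | ∃ f : Fin k → ℂ, (∀ i, f i ∈ A) ∧ y = ∏ i, f i} =
      (Pool.Agent.Helper99.RT.prodC k A : Set ℂ) := by
    intro A
    ext y
    constructor
    · rintro ⟨f, hf, rfl⟩
      exact mem_coe.2 (Pool.Agent.Helper99.RT.mem_prodC.2 ⟨f, hf, rfl⟩)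
    · intro hy
      obtain ⟨f, hf, hy2⟩ := Pool.Agent.Helper99.RT.mem_prodC.1 (mem_coe.1 hy)
      exact ⟨f, hf, hy2.symm⟩
  have hsum : ∀ A : Finset ℂ, {y : ℂ | ∃ f : Fin k → ℂ, (∀ i, f i ∈ A) ∧ y = ∑ i, f i} =
      (Pool.Agent.Helper99.RT.sumC k A : Set ℂ) := by
    intro A
    ext y
    constructor
    · rintro ⟨f, hf, rfl⟩
      exact mem_coe.2 (Pool.Agent.Helper99.RT.mem_sumC.2 ⟨f, hf, rfl⟩)
    · intro hy
      obtain ⟨f, hf, hy2⟩ := Pool.Agent.Helper99.RT.mem_sumC.1 (mem_coe.1 hy)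
      exact ⟨f, hf, hy2.symm⟩
  refine ⟨m, c, hc, ?_, ?_⟩
  · intro A hA
    obtain ⟨Z, hZ, h⟩ := h1 A hA
    refine ⟨Z, hZ, fun F hF B hB => ?_⟩
    have h3 := h F (fun i => ⟨(hF i).1, (hF i).2.1, (hF i).2.2.1⟩) (fun i => (hF i).2.2.2) B hB
    have h4 : {y : ℂ | ∃ a : Fin k → ℤ, (∀ i, a i ∈ A) ∧ ∃ b ∈ B,
        y = (∏ i, (((F i).eval (a i) : ℤ) : ℂ)) * b} =
        (Pool.Agent.Helper99.TR.polyProd F A B : Set ℂ) := by
      ext y
      constructor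
      · rintro ⟨a, ha, b, hb, rfl⟩
        exact mem_coe.2 ((Pool.Agent.Helper99.TR.mem_polyProd _ _ _ _).2 ⟨a, ha, b, hb, rfl⟩)
      · intro hy
        obtain ⟨a, ha, b, hb, hy2⟩ :=
          (Pool.Agent.Helper99.TR.mem_polyProd _ _ _ _).1 (mem_coe.1 hy)
        exact ⟨a, ha, b, hb, hy2.symm⟩
    have h5 : {y : ℂ | ∃ a : Fin k → ℤ, (∀ i, a i ∈ A ∧ (F i).eval (a i) ≠ 0) ∧ ∃ b ∈ B,
        y = (∑ i, 1 / (((F i).eval (a i) : ℤ) : ℂ)) + b} =
        (Pool.Agent.Helper99.RT.polyRec F A B : Set ℂ) := by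
      ext y
      constructor
      · rintro ⟨a, ha, b, hb, rfl⟩
        refine mem_coe.2 ((Pool.Agent.Helper99.RT.mem_polyRec _ _ _ _).2 ⟨a, ha, b, hb, ?_⟩)
        simp only [one_div]
      · intro hy
        obtain ⟨a, ha, b, hb, hy2⟩ :=
          (Pool.Agent.Helper99.RT.mem_polyRec _ _ _ _).1 (mem_coe.1 hy)
        refine ⟨a, ha, b, hb, ?_⟩
        simp only [one_div]
        exact hy2.symm
    constructor
    · intro h0
      rw [h4, Set.ncard_coe_finset, mul_assoc]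
      refine (h3.1 h0).trans ?_
      exact_mod_cast card_le_card (erase_subset _ _)
    · rw [h5, Set.ncard_coe_finset, mul_assoc]
      exact h3.2
  · intro B A hB hA hAB F t hF hFF
    have h3 := h2 B A hB hA hAB F t (fun i => (hF i).2.2.2)
      (fun i => ⟨(hF i).1, (hF i).2.1, (hF i).2.2.1⟩) hFF
    rw [hprod A, hsum A, Set.ncard_coe_finset, Set.ncard_coe_finset]
    exact h3

end Pool.Agent.Helper99.RT.Result
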